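import Mathlib

/-!
# Flat Moebius bands and real algebraic subsets of Euclidean 4-space: definitions
-/

set_option autoImplicit false

namespace Pool.Agent.H48R3.MB

open scoped ContDiff Topology

/-- Euclidean 4-space. -/
abbrev E4 : Type := EuclideanSpace ℝ (Fin 4)

/-- The glide reflection `(v, t) ↦ (v + w, -t)` of the plane. -/
def glide (w : ℝ) : Equiv.Perm (ℝ × ℝ) where
  toFun p := (p.1 + w, -p.2)
  invFun p := (p.1 - w, -p.2)
  left_inv p := by ext <;> simp
  right_inv p := by ext <;> simp

/-- The complete flat Moebius band `M_w`: the quotient of the plane by the group generated by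
the glide reflection `(v, t) ↦ (v + w, -t)`. -/
def MoebiusBand (w : ℝ) : Type :=
  MulAction.orbitRel.Quotient (Subgroup.zpowers (glide w)) (ℝ × ℝ)

/-- The band carries the quotient topology. -/
instance (w : ℝ) : TopologicalSpace (MoebiusBand w) :=
  inferInstanceAs (TopologicalSpace (Quotient _))

/-- The covering projection from the plane to the band. -/
def proj (w : ℝ) (p : ℝ × ℝ) : MoebiusBand w := Quotient.mk _ p

/-- `X` is an isometric embedding of `M_w` into Euclidean 4-space: its lift to the plane is
smooth, it pulls the Euclidean metric back to `dv² + dt²`, and `X` is a homeomorphism onto its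
image (in particular it is injective). -/
structure IsIsometricEmbedding (w : ℝ) (X : MoebiusBand w → E4) : Prop where
  smooth : ContDiff ℝ ∞ (fun p => X (proj w p))
  isometric : ∀ p u : ℝ × ℝ, ‖fderiv ℝ (fun q => X (proj w q)) p u‖ ^ 2 = u.1 ^ 2 + u.2 ^ 2
  isEmbedding : Topology.IsEmbedding X

/-- The common real zero set of finitely many real polynomials. -/
def zeroSet (P : Finset (MvPolynomial (Fin 4) ℝ)) : Set E4 :=
  {x | ∀ f ∈ P, MvPolynomial.eval (fun i => x i) f = 0}

/-- The ideal of all real polynomials vanishing on `Z`. -/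
def idealOf (Z : Set E4) : Ideal (MvPolynomial (Fin 4) ℝ) where
  carrier := {f | ∀ x ∈ Z, MvPolynomial.eval (fun i => x i) f = 0}
  add_mem' := by
    intro p q hp hq x hx
    simp [hp x hx, hq x hx]
  zero_mem' := by intro x _; simp
  smul_mem' := by
    intro c p hp x hx
    simp [hp x hx]

/-- The dimension of a real algebraic set `Z`: the Krull dimension of the ring
`ℝ[x₁, …, x₄] / I(Z)` of polynomial functions on `Z`. -/
noncomputable def algDim (Z : Set E4) : WithBot ℕ∞ :=
  ringKrullDim (MvPolynomial (Fin 4) ℝ ⧸ idealOf Z)

/-- `S` is contained in a real algebraic subset of Euclidean 4-space of dimension two. -/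
def IsAlgebraicSurface (S : Set E4) : Prop :=
  ∃ P : Finset (MvPolynomial (Fin 4) ℝ), S ⊆ zeroSet P ∧ algDim (zeroSet P) = 2

end Pool.Agent.H48R3.MB
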