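import Mathlib
import Pool.Agent.H48R3.MB.Defs

set_option autoImplicit false

namespace Pool.Agent.H48R3.MB

open scoped ContDiff Topology
open Set Filter Topology

theorem glide_apply (w : ℝ) (p : ℝ × ℝ) : glide w p = (p.1 + w, -p.2) := rfl

theorem glide_symm_apply (w : ℝ) (p : ℝ × ℝ) : (glide w)⁻¹ p = (p.1 - w, -p.2) := rfl

theorem proj_glide (w : ℝ) (p : ℝ × ℝ) : proj w (glide w p) = proj w p :=
  Quotient.sound ⟨⟨glide w, Subgroup.mem_zpowers _⟩, rfl⟩

theorem proj_zpow (w : ℝ) (n : ℤ) (p : ℝ × ℝ) : proj w ((glide w ^ n) p) = proj w p :=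
  Quotient.sound ⟨⟨glide w ^ n, n, rfl⟩, rfl⟩

theorem proj_eq_iff {w : ℝ} {p q : ℝ × ℝ} :
    proj w p = proj w q ↔ ∃ n : ℤ, (glide w ^ n) q = p := by
  constructor
  · intro h
    obtain ⟨⟨g, n, rfl⟩, h2⟩ := Quotient.exact h
    exact ⟨n, h2⟩
  · rintro ⟨n, rfl⟩
    exact proj_zpow w n q

theorem continuous_proj (w : ℝ) : Continuous (proj w) := continuous_quotient_mk'

theorem isQuotientMap_proj (w : ℝ) : IsQuotientMap (proj w) := isQuotientMap_quotient_mk'

theorem proj_surjective (w : ℝ) : Function.Surjective (proj w) := Quotient.mk_surjective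

theorem continuous_glide (w : ℝ) : Continuous (glide w) := by
  change Continuous fun p : ℝ × ℝ => (p.1 + w, -p.2)
  fun_prop

theorem glide_zpow_succ (w : ℝ) (n : ℤ) (p : ℝ × ℝ) :
    (glide w ^ (n + 1)) p = (((glide w ^ n) p).1 + w, -((glide w ^ n) p).2) := by
  rw [add_comm, zpow_one_add, Equiv.Perm.mul_apply, glide_apply]

theorem glide_zpow_pred (w : ℝ) (n : ℤ) (p : ℝ × ℝ) :
    (glide w ^ (n - 1)) p = (((glide w ^ n) p).1 - w, -((glide w ^ n) p).2) := by
  rw [sub_eq_add_neg, add_comm, zpow_add, zpow_neg_one, Equiv.Perm.mul_apply, glide_symm_apply]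

theorem glide_zpow_fst (w : ℝ) (n : ℤ) (p : ℝ × ℝ) : ((glide w ^ n) p).1 = p.1 + n * w := by
  induction n using Int.induction_on with
  | zero => simp
  | succ n ih =>
    rw [glide_zpow_succ]
    push_cast at ih ⊢
    simp only [ih]; ring
  | pred n ih =>
    rw [glide_zpow_pred]
    push_cast at ih ⊢
    simp only [ih]; ring

theorem glide_zpow_abs (w : ℝ) (n : ℤ) (p : ℝ × ℝ) : |((glide w ^ n) p).2| = |p.2| := by
  induction n using Int.induction_on with
  | zero => simp
  | succ n ih =>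
    rw [glide_zpow_succ]
    simp only [abs_neg, ih]
  | pred n ih =>
    rw [glide_zpow_pred]
    simp only [abs_neg, ih]

/-- invariance under the glide reflection implies invariance under its powers -/
theorem zpow_invariant {α : Type*} {w : ℝ} {f : ℝ × ℝ → α} (hf : ∀ p, f (glide w p) = f p)
    (n : ℤ) (p : ℝ × ℝ) : f ((glide w ^ n) p) = f p := by
  induction n using Int.induction_on with
  | zero => simp
  | succ n ih =>
    rw [add_comm, zpow_one_add, Equiv.Perm.mul_apply, hf, ih]
  | pred n ih =>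
    rw [← ih, ← hf ((glide w ^ (-(n : ℤ) - 1)) p), ← Equiv.Perm.mul_apply, ← zpow_one_add]
    congr 3
    ring

theorem isOpenMap_proj (w : ℝ) : IsOpenMap (proj w) := by
  intro U hU
  rw [← (isQuotientMap_proj w).isOpen_preimage]
  have : proj w ⁻¹' (proj w '' U) = ⋃ n : ℤ, (fun p => (glide w ^ n) p) ⁻¹' U := by
    ext p
    simp only [mem_preimage, mem_image, mem_iUnion]
    constructor
    · rintro ⟨q, hq, h⟩
      obtain ⟨n, hn⟩ := proj_eq_iff.1 h
      exact ⟨n, by rw [hn]; exact hq⟩
    · rintro ⟨n, hn⟩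
      exact ⟨_, hn, proj_zpow w n p⟩
  rw [this]
  refine isOpen_iUnion fun n => hU.preimage ?_
  have h1 : Continuous (glide w) := continuous_glide w
  have h2 : Continuous ((glide w)⁻¹ : Equiv.Perm (ℝ × ℝ)) := by
    change Continuous fun p : ℝ × ℝ => (p.1 - w, -p.2)
    fun_prop
  induction n using Int.induction_on with
  | zero =>
    have : (fun p : ℝ × ℝ => (glide w ^ (0 : ℤ)) p) = id := by funext p; simp
    rw [this]; exact continuous_id
  | succ n ih =>
    have : (fun p => (glide w ^ ((n : ℤ) + 1)) p) = fun p => glide w ((glide w ^ (n : ℤ)) p) := by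
      funext p
      rw [add_comm, zpow_one_add, Equiv.Perm.mul_apply]
    rw [this]
    exact h1.comp ih
  | pred n ih =>
    have : (fun p => (glide w ^ (-(n : ℤ) - 1)) p) =
        fun p => (glide w)⁻¹ ((glide w ^ (-(n : ℤ))) p) := by
      funext p
      rw [sub_eq_add_neg, add_comm, zpow_add, zpow_neg_one, Equiv.Perm.mul_apply]
    rw [this]
    exact h2.comp ih

/-- each point is equivalent to a point with first coordinate in `[0, w)` -/
theorem exists_rep {w : ℝ} (hw : 0 < w) (p : ℝ × ℝ) :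
    ∃ n : ℤ, ((glide w ^ n) p).1 ∈ Ico 0 w := by
  refine ⟨-⌊p.1 / w⌋, ?_⟩
  rw [glide_zpow_fst]
  have h1 := Int.floor_le (p.1 / w)
  have h2 := Int.lt_floor_add_one (p.1 / w)
  rw [le_div_iff₀ hw] at h1
  rw [div_lt_iff₀ hw] at h2
  push_cast
  constructor <;> nlinarith

/-- the map induced on the band by an invariant map of the plane -/
def descend {α : Type*} (w : ℝ) (f : ℝ × ℝ → α) (hf : ∀ p, f (glide w p) = f p) :
    MoebiusBand w → α :=
  Quotient.lift f (by
    rintro a b ⟨⟨g, n, rfl⟩, h2⟩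
    have : a = (glide w ^ n) b := h2.symm
    rw [this]
    exact zpow_invariant hf n b)

theorem descend_proj {α : Type*} (w : ℝ) (f : ℝ × ℝ → α) (hf : ∀ p, f (glide w p) = f p)
    (p : ℝ × ℝ) : descend w f hf (proj w p) = f p := rfl

theorem continuous_descend {α : Type*} [TopologicalSpace α] (w : ℝ) (f : ℝ × ℝ → α)
    (hf : ∀ p, f (glide w p) = f p) (hc : Continuous f) : Continuous (descend w f hf) := by
  rw [(isQuotientMap_proj w).continuous_iff]
  exact hc

end Pool.Agent.H48R3.MB
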