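import Mathlib

set_option autoImplicit false

namespace Pool.Agent.H48R3.MB

open scoped ContDiff Topology
open Set Filter

theorem smooth_inverse (f : ℝ × ℝ → ℝ × ℝ) (hf : ContDiff ℝ ∞ f) (hb : Function.Bijective f)
    (hd : ∀ p, ∃ e : (ℝ × ℝ) ≃L[ℝ] (ℝ × ℝ), HasFDerivAt f (e : ℝ × ℝ →L[ℝ] ℝ × ℝ) p) :
    ∃ g : ℝ × ℝ → ℝ × ℝ, (∀ p, g (f p) = p) ∧ (∀ q, f (g q) = q) ∧ ContDiff ℝ ∞ g := by
  let E := Equiv.ofBijective f hb
  refine ⟨E.symm, E.symm_apply_apply, E.apply_symm_apply, ?_⟩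
  rw [contDiff_iff_contDiffAt]
  intro q
  obtain ⟨e, he⟩ := hd (E.symm q)
  have hfa : ContDiffAt ℝ ∞ f (E.symm q) := hf.contDiffAt
  let φ := hfa.toOpenPartialHomeomorph f he (by simp)
  have hφ : (φ : ℝ × ℝ → ℝ × ℝ) = f := rfl
  have hmem : E.symm q ∈ φ.source := hfa.mem_toOpenPartialHomeomorph_source he (by simp)
  have hq : φ (E.symm q) = q := E.apply_symm_apply q
  have ht : q ∈ φ.target := by
    rw [← hq]; exact φ.map_source hmem
  have hsymm : φ.symm q = E.symm q := by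
    conv_lhs => rw [← hq]
    exact φ.left_inv hmem
  have h1 : ContDiffAt ℝ ∞ φ.symm q := by
    refine φ.contDiffAt_symm (f₀' := e) ht ?_ ?_
    · rw [hsymm]; exact he
    · rw [hsymm]; exact hfa
  refine h1.congr_of_eventuallyEq ?_
  filter_upwards [φ.open_target.mem_nhds ht] with y hy
  have h2 : f (φ.symm y) = y := φ.right_inv hy
  change E.symm y = φ.symm y
  rw [Equiv.symm_apply_eq]
  exact h2.symm

/-- a `2 × 2` matrix with nonzero determinant gives a continuous linear equivalence -/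
theorem exists_equiv (a b c d : ℝ) (h : a * d - b * c ≠ 0) :
    ∃ e : (ℝ × ℝ) ≃L[ℝ] (ℝ × ℝ), ∀ u : ℝ × ℝ, e u = (a * u.1 + b * u.2, c * u.1 + d * u.2) := by
  obtain ⟨k, hk⟩ : ∃ k : ℝ, k * (a * d - b * c) = 1 := ⟨_, inv_mul_cancel₀ h⟩
  let L : (ℝ × ℝ) →ₗ[ℝ] (ℝ × ℝ) :=
    { toFun := fun u => (a * u.1 + b * u.2, c * u.1 + d * u.2)
      map_add' := by intro u v; ext <;> simp <;> ring
      map_smul' := by intro r u; ext <;> simp <;> ring }
  let M : (ℝ × ℝ) →ₗ[ℝ] (ℝ × ℝ) :=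
    { toFun := fun u => ((d * u.1 - b * u.2) * k, (-c * u.1 + a * u.2) * k)
      map_add' := by intro u v; ext <;> simp <;> ring
      map_smul' := by intro r u; ext <;> simp <;> ring }
  let e : (ℝ × ℝ) ≃ₗ[ℝ] (ℝ × ℝ) := LinearEquiv.ofLinearMap L M
    (by
      apply LinearMap.ext
      intro u
      simp only [LinearMap.comp_apply, L, M, LinearMap.coe_mk, AddHom.coe_mk, LinearMap.id_apply]
      ext
      · simp only; linear_combination u.1 * hk
      · simp only; linear_combination u.2 * hk)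
    (by
      apply LinearMap.ext
      intro u
      simp only [LinearMap.comp_apply, L, M, LinearMap.coe_mk, AddHom.coe_mk, LinearMap.id_apply]
      ext
      · simp only; linear_combination u.1 * hk
      · simp only; linear_combination u.2 * hk)
  exact ⟨e.toContinuousLinearEquiv, fun u => rfl⟩

/-- local injectivity at a point with invertible derivative -/
theorem locally_injective (f : ℝ × ℝ → ℝ × ℝ) (p : ℝ × ℝ) (hf : ContDiffAt ℝ ∞ f p)
    (e : (ℝ × ℝ) ≃L[ℝ] (ℝ × ℝ)) (he : HasFDerivAt f (e : ℝ × ℝ →L[ℝ] ℝ × ℝ) p) :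
    ∃ u ∈ 𝓝 p, InjOn f u := by
  let φ := hf.toOpenPartialHomeomorph f he (by simp)
  refine ⟨φ.source, φ.open_source.mem_nhds (hf.mem_toOpenPartialHomeomorph_source he (by simp)), ?_⟩
  exact φ.injOn

end Pool.Agent.H48R3.MB
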