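import Mathlib
import Pool.Agent.H48R3.MB.Defs
import Pool.Agent.H48R3.MB.Basic
import Pool.Agent.H48R3.MB.Inv

set_option autoImplicit false

namespace Pool.Agent.H48R3.MB

open scoped ContDiff Topology
open Set Filter Topology Real

/-- A closed curve `c` in 3-space with unit tangent `T`, speed `rho`, and a Moebius-type
rectifying ruling field `D = lam T + B`. -/
structure Data where
  c : Fin 3 → ℝ → ℝ
  T : Fin 3 → ℝ → ℝ
  D : Fin 3 → ℝ → ℝ
  rho : ℝ → ℝ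
  lam : ℝ → ℝ
  dlam : ℝ → ℝ
  hc : ∀ i, ContDiff ℝ ∞ (c i)
  hD : ∀ i, ContDiff ℝ ∞ (D i)
  hrho : ContDiff ℝ ∞ rho
  hlam : ContDiff ℝ ∞ lam
  dc : ∀ i θ, HasDerivAt (c i) (rho θ * T i θ) θ
  dD : ∀ i θ, HasDerivAt (D i) (dlam θ * T i θ) θ
  dl : ∀ θ, HasDerivAt lam (dlam θ) θ
  rho_pos : ∀ θ, 0 < rho θ
  TT : ∀ θ, ∑ i, T i θ ^ 2 = 1
  TD : ∀ θ, ∑ i, T i θ * D i θ = lam θ
  DD : ∀ θ, ∑ i, D i θ ^ 2 = 1 + lam θ ^ 2
  per_c : ∀ i θ, c i (θ + π) = c i θ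
  per_D : ∀ i θ, D i (θ + π) = - D i θ
  per_rho : ∀ θ, rho (θ + π) = rho θ
  per_lam : ∀ θ, lam (θ + π) = - lam θ
  inj : ∀ θ θ', (∀ i, c i θ = c i θ') → ∃ n : ℤ, θ = θ' + n * π

namespace Data

variable (d : Data)

/-- the ruled surface -/
def Y (p : ℝ × ℝ) (i : Fin 3) : ℝ := d.c i p.1 + p.2 * d.D i p.1

theorem Y_glide (p : ℝ × ℝ) : d.Y (glide π p) = d.Y p := by
  funext i
  simp only [Y, glide_apply, d.per_c, d.per_D]
  ring

theorem Y_continuous : Continuous d.Y := by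
  refine continuous_pi fun i => ?_
  have h1 := (d.hc i).continuous
  have h2 := (d.hD i).continuous
  change Continuous fun p : ℝ × ℝ => d.c i p.1 + p.2 * d.D i p.1
  fun_prop

theorem Y_hasFDerivAt (p : ℝ × ℝ) (i : Fin 3) :
    HasFDerivAt (fun p => d.Y p i)
      (((d.rho p.1 + p.2 * d.dlam p.1) * d.T i p.1) • ContinuousLinearMap.fst ℝ ℝ ℝ +
        (d.D i p.1) • ContinuousLinearMap.snd ℝ ℝ ℝ) p := by
  have h1 : HasFDerivAt (fun p : ℝ × ℝ => d.c i p.1)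
      ((d.rho p.1 * d.T i p.1) • ContinuousLinearMap.fst ℝ ℝ ℝ) p :=
    (d.dc i p.1).comp_hasFDerivAt p hasFDerivAt_fst
  have h2 : HasFDerivAt (fun p : ℝ × ℝ => d.D i p.1)
      ((d.dlam p.1 * d.T i p.1) • ContinuousLinearMap.fst ℝ ℝ ℝ) p :=
    (d.dD i p.1).comp_hasFDerivAt p hasFDerivAt_fst
  have h3 := h1.add ((hasFDerivAt_snd (𝕜 := ℝ) (E := ℝ) (F := ℝ) (p := p)).mul h2)
  refine h3.congr_fderiv ?_
  refine ContinuousLinearMap.ext fun u => ?_
  simp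
  ring

theorem Y_contDiff (i : Fin 3) : ContDiff ℝ ∞ (fun p => d.Y p i) := by
  have h1 := d.hc i
  have h2 := d.hD i
  change ContDiff ℝ ∞ fun p : ℝ × ℝ => d.c i p.1 + p.2 * d.D i p.1
  fun_prop

/-- local injectivity of the ruled surface near the core curve -/
theorem Y_locally_injective (θ : ℝ) : ∃ u ∈ 𝓝 ((θ, 0) : ℝ × ℝ), InjOn d.Y u := by
  let f : ℝ × ℝ → ℝ × ℝ := fun p =>
    (∑ i, d.T i θ * d.Y p i, ∑ i, (d.D i θ - d.lam θ * d.T i θ) * d.Y p i)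
  have hf : ContDiff ℝ ∞ f := by
    have := d.Y_contDiff
    refine ContDiff.prodMk ?_ ?_
    · exact ContDiff.sum fun i _ => contDiff_const.mul (this i)
    · exact ContDiff.sum fun i _ => contDiff_const.mul (this i)
  have hT : ∑ i, d.T i θ * (d.rho θ * d.T i θ) = d.rho θ := by
    have := d.TT θ
    simp only [Fin.sum_univ_three] at this ⊢
    linear_combination d.rho θ * this
  have hB : ∑ i, (d.D i θ - d.lam θ * d.T i θ) * (d.rho θ * d.T i θ) = 0 := by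
    have h1 := d.TT θ
    have h2 := d.TD θ
    simp only [Fin.sum_univ_three] at h1 h2 ⊢
    linear_combination d.rho θ * h2 - d.rho θ * d.lam θ * h1
  have hT2 : ∑ i, d.T i θ * d.D i θ = d.lam θ := d.TD θ
  have hB2 : ∑ i, (d.D i θ - d.lam θ * d.T i θ) * d.D i θ = 1 := by
    have h1 := d.DD θ
    have h2 := d.TD θ
    simp only [Fin.sum_univ_three] at h1 h2 ⊢
    linear_combination h1 - d.lam θ * h2
  obtain ⟨e, he⟩ := exists_equiv (d.rho θ) (d.lam θ) 0 1 (by have := (d.rho_pos θ).ne'; simpa)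
  have hder : HasFDerivAt f (e : ℝ × ℝ →L[ℝ] ℝ × ℝ) (θ, 0) := by
    have h1 : HasFDerivAt (fun p => ∑ i, d.T i θ * d.Y p i)
        (∑ i, d.T i θ • (((d.rho θ + 0 * d.dlam θ) * d.T i θ) • ContinuousLinearMap.fst ℝ ℝ ℝ +
        (d.D i θ) • ContinuousLinearMap.snd ℝ ℝ ℝ)) ((θ, 0) : ℝ × ℝ) :=
      HasFDerivAt.fun_sum fun i _ => (d.Y_hasFDerivAt (θ, 0) i).const_mul _
    have h2 : HasFDerivAt (fun p => ∑ i, (d.D i θ - d.lam θ * d.T i θ) * d.Y p i)
        (∑ i, (d.D i θ - d.lam θ * d.T i θ) •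
          (((d.rho θ + 0 * d.dlam θ) * d.T i θ) • ContinuousLinearMap.fst ℝ ℝ ℝ +
        (d.D i θ) • ContinuousLinearMap.snd ℝ ℝ ℝ)) ((θ, 0) : ℝ × ℝ) :=
      HasFDerivAt.fun_sum fun i _ => (d.Y_hasFDerivAt (θ, 0) i).const_mul _
    refine (h1.prodMk h2).congr_fderiv ?_
    refine ContinuousLinearMap.ext fun u => ?_
    refine Eq.symm ?_
    change e u = _
    rw [he]
    simp only [Fin.sum_univ_three] at hT hB hT2 hB2
    ext
    · simp [Fin.sum_univ_three]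
      linear_combination (-u.1) * hT - u.2 * hT2
    · simp [Fin.sum_univ_three]
      linear_combination (-u.1) * hB - u.2 * hB2
  obtain ⟨u, hu, hinj⟩ := locally_injective f (θ, 0) hf.contDiffAt e hder
  refine ⟨u, hu, fun a ha b hb hab => hinj ha hb ?_⟩
  simp only [f, hab]

/-- the ruled surface is injective near the core, modulo the glide reflection -/
theorem Y_injective_near : ∃ S > 0, ∀ p q : ℝ × ℝ, |p.2| < S → |q.2| < S →
    d.Y p = d.Y q → proj π p = proj π q := by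
  let Yb : MoebiusBand π → (Fin 3 → ℝ) := descend π d.Y d.Y_glide
  have hYb : ∀ p, Yb (proj π p) = d.Y p := fun p => rfl
  have hcont : Continuous Yb := continuous_descend π d.Y d.Y_glide d.Y_continuous
  let K : Set (MoebiusBand π) := proj π '' (Icc 0 π ×ˢ {0})
  have hK : IsCompact K := (isCompact_Icc.prod isCompact_singleton).image (continuous_proj π)
  have hinj : InjOn Yb K := by
    rintro _ ⟨⟨θ, s⟩, ⟨-, hs⟩, rfl⟩ _ ⟨⟨θ', s'⟩, ⟨-, hs'⟩, rfl⟩ h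
    simp only [mem_singleton_iff] at hs hs'
    subst hs hs'
    rw [hYb, hYb] at h
    obtain ⟨n, hn⟩ := d.inj θ θ' (fun i => by simpa [Y] using congrFun h i)
    rw [proj_eq_iff]
    refine ⟨n, ?_⟩
    have h1 := glide_zpow_fst π n (θ', 0)
    have h2 := glide_zpow_abs π n (θ', 0)
    simp only [abs_zero, abs_eq_zero] at h2
    exact Prod.ext (by rw [h1]; exact hn.symm) h2
  have hloc : ∀ x ∈ K, ∃ u ∈ 𝓝 x, InjOn Yb u := by
    rintro _ ⟨⟨θ, s⟩, ⟨-, hs⟩, rfl⟩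
    simp only [mem_singleton_iff] at hs
    subst hs
    obtain ⟨u, hu, hui⟩ := d.Y_locally_injective θ
    refine ⟨proj π '' u, (isOpenMap_proj π).image_mem_nhds hu, ?_⟩
    rintro _ ⟨a, ha, rfl⟩ _ ⟨b, hb, rfl⟩ h
    rw [hYb, hYb] at h
    rw [hui ha hb h]
  obtain ⟨t, ht, htinj⟩ := hinj.exists_mem_nhdsSet hK (fun x _ => hcont.continuousAt) hloc
  -- pull back to the plane
  have hpre : proj π ⁻¹' t ∈ 𝓝ˢ (Icc (0 : ℝ) π ×ˢ ({0} : Set ℝ)) := by
    rw [mem_nhdsSet_iff_forall] at ht ⊢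
    intro p hp
    exact (continuous_proj π).continuousAt (ht _ ⟨p, hp, rfl⟩)
  rw [(isCompact_Icc.nhdsSet_prod_eq isCompact_singleton), nhdsSet_singleton] at hpre
  obtain ⟨U, hU, V, hV, hUV⟩ := Filter.mem_prod_iff.1 hpre
  obtain ⟨S, hS, hSV⟩ := Metric.mem_nhds_iff.1 hV
  refine ⟨S, hS, fun p q hp hq h => ?_⟩
  have key : ∀ p : ℝ × ℝ, |p.2| < S → proj π p ∈ t := by
    intro p hp
    obtain ⟨n, hn⟩ := exists_rep pi_pos p
    rw [← proj_zpow π n p]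
    have h1 : (glide π ^ n) p ∈ U ×ˢ V := by
      refine ⟨subset_of_mem_nhdsSet hU ⟨hn.1, hn.2.le⟩, hSV ?_⟩
      rw [Metric.mem_ball, dist_zero_right, Real.norm_eq_abs, glide_zpow_abs]
      exact hp
    exact hUV h1
  exact htinj (key p hp) (key q hq) (by rw [hYb, hYb]; exact h)

end Data

end Pool.Agent.H48R3.MB
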