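import Mathlib
import Pool.Agent.H48R3.MB.Data

set_option autoImplicit false

namespace Pool.Agent.H48R3.MB

open scoped ContDiff Topology
open Set Filter Topology Real

theorem bounded_of_periodic {f : ℝ → ℝ} {c : ℝ} (hp : Function.Periodic f c) (hc : c ≠ 0)
    (hf : Continuous f) : ∃ C > 0, ∀ x, |f x| ≤ C := by
  obtain ⟨C, hC⟩ := (hp.isBounded_of_continuous hc hf).exists_norm_le
  refine ⟨max C 1, by positivity, fun x => ?_⟩
  exact (hC _ ⟨x, rfl⟩).trans (le_max_left _ _)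

theorem contDiff_primitive {f : ℝ → ℝ} (hf : ContDiff ℝ ∞ f) :
    ContDiff ℝ ∞ (fun x => ∫ t in (0 : ℝ)..x, f t) := by
  have h : ∀ x, HasDerivAt (fun x => ∫ t in (0 : ℝ)..x, f t) (f x) x := fun x =>
    (hf.continuous.integral_hasStrictDerivAt 0 x).hasDerivAt
  rw [contDiff_infty_iff_deriv]
  refine ⟨fun x => (h x).differentiableAt, ?_⟩
  have : deriv (fun x => ∫ t in (0 : ℝ)..x, f t) = f := funext fun x => (h x).deriv
  rw [this]
  exact hf

/-- the profile `s(r) = S r / √(1 + r²)` -/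
noncomputable def sF (S r : ℝ) : ℝ := S * (r / √(1 + r ^ 2))

/-- its derivative -/
noncomputable def dsF (S r : ℝ) : ℝ := S / (√(1 + r ^ 2)) ^ 3

theorem sF_hasDerivAt (S r : ℝ) : HasDerivAt (sF S) (dsF S r) r := by
  have h0 : 0 < 1 + r ^ 2 := by positivity
  have h1 : 0 < √(1 + r ^ 2) := Real.sqrt_pos.2 h0
  have h2 : √(1 + r ^ 2) ^ 2 = 1 + r ^ 2 := Real.sq_sqrt h0.le
  have h3 : HasDerivAt (fun x : ℝ => 1 + x ^ 2) (2 * r) r := by
    simpa using (hasDerivAt_pow 2 r).const_add 1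
  have h4 := h3.sqrt h0.ne'
  have h5 := ((hasDerivAt_id r).div h4 h1.ne').const_mul S
  refine h5.congr_deriv ?_
  simp only [dsF, id]
  field_simp
  rw [h2]
  ring

theorem sF_contDiff (S : ℝ) : ContDiff ℝ ∞ (sF S) := by
  have h0 : ∀ r : ℝ, 1 + r ^ 2 ≠ 0 := fun r => by positivity
  have h1 : ContDiff ℝ ∞ fun r : ℝ => √(1 + r ^ 2) := by
    refine ContDiff.sqrt (by fun_prop) h0
  refine contDiff_const.mul (contDiff_id.div h1 fun r => ?_)
  exact (Real.sqrt_pos.2 (by positivity)).ne'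

theorem dsF_contDiff (S : ℝ) : ContDiff ℝ ∞ (dsF S) := by
  have h0 : ∀ r : ℝ, 1 + r ^ 2 ≠ 0 := fun r => by positivity
  have h1 : ContDiff ℝ ∞ fun r : ℝ => √(1 + r ^ 2) := by
    refine ContDiff.sqrt (by fun_prop) h0
  refine contDiff_const.div (h1.pow 3) fun r => ?_
  exact pow_ne_zero _ (Real.sqrt_pos.2 (by positivity)).ne'

theorem sF_neg (S r : ℝ) : sF S (-r) = - sF S r := by
  simp only [sF, neg_sq]; ring

theorem dsF_neg (S r : ℝ) : dsF S (-r) = dsF S r := by
  simp only [dsF, neg_sq]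

theorem dsF_pos {S : ℝ} (hS : 0 < S) (r : ℝ) : 0 < dsF S r := by
  have : 0 < √(1 + r ^ 2) := Real.sqrt_pos.2 (by positivity)
  unfold dsF; positivity

theorem sF_abs_lt {S : ℝ} (hS : 0 < S) (r : ℝ) : |sF S r| < S := by
  have h1 : 0 < √(1 + r ^ 2) := Real.sqrt_pos.2 (by positivity)
  have h2 : |r| < √(1 + r ^ 2) := by
    apply Real.lt_sqrt_of_sq_lt
    rw [sq_abs]; linarith
  rw [sF, abs_mul, abs_div, abs_of_pos hS, abs_of_pos h1]
  have : |r| / √(1 + r ^ 2) < 1 := (div_lt_one h1).2 h2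
  nlinarith

theorem sF_sq {S : ℝ} (r : ℝ) : sF S r ^ 2 * (1 + r ^ 2) = S ^ 2 * r ^ 2 := by
  have h0 : 0 < 1 + r ^ 2 := by positivity
  have h1 : 0 < √(1 + r ^ 2) := Real.sqrt_pos.2 h0
  have h2 : √(1 + r ^ 2) ^ 2 = 1 + r ^ 2 := Real.sq_sqrt h0.le
  rw [sF, mul_pow, div_pow, h2]
  field_simp

theorem sF_strictMono {S : ℝ} (hS : 0 < S) : StrictMono (sF S) :=
  strictMono_of_deriv_pos fun r => by rw [(sF_hasDerivAt S r).deriv]; exact dsF_pos hS r

/-- the speed of the profile curve `r ↦ (s(r), r²)` -/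
noncomputable def spd (S r : ℝ) : ℝ := √(dsF S r ^ 2 + (2 * r) ^ 2)

theorem spd_pos {S : ℝ} (hS : 0 < S) (r : ℝ) : 0 < spd S r := by
  have := dsF_pos hS r
  exact Real.sqrt_pos.2 (by positivity)

theorem spd_sq (S r : ℝ) : spd S r ^ 2 = dsF S r ^ 2 + (2 * r) ^ 2 :=
  Real.sq_sqrt (by positivity)

theorem spd_contDiff {S : ℝ} (hS : 0 < S) : ContDiff ℝ ∞ (spd S) := by
  refine ContDiff.sqrt (((dsF_contDiff S).pow 2).add (by fun_prop)) fun r => ?_
  have := dsF_pos hS r
  positivity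

/-- arc length of the profile curve -/
noncomputable def G (S r : ℝ) : ℝ := ∫ x in (0 : ℝ)..r, spd S x

theorem G_hasDerivAt {S : ℝ} (hS : 0 < S) (r : ℝ) : HasDerivAt (G S) (spd S r) r :=
  ((spd_contDiff hS).continuous.integral_hasStrictDerivAt 0 r).hasDerivAt

theorem G_contDiff {S : ℝ} (hS : 0 < S) : ContDiff ℝ ∞ (G S) := contDiff_primitive (spd_contDiff hS)

theorem G_neg (S r : ℝ) : G S (-r) = - G S r := by
  have h1 : ∀ x, spd S (-x) = spd S x := fun x => by
    simp only [spd, dsF_neg]; congr 2; ring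
  unfold G
  rw [intervalIntegral.integral_symm]
  have h2 := intervalIntegral.integral_comp_neg (a := 0) (b := r) (spd S)
  simp only [h1, neg_zero] at h2
  rw [h2]

theorem G_strictMono {S : ℝ} (hS : 0 < S) : StrictMono (G S) :=
  strictMono_of_deriv_pos fun r => by rw [(G_hasDerivAt hS r).deriv]; exact spd_pos hS r

theorem G_ge {S : ℝ} (hS : 0 < S) {r : ℝ} (hr : 0 ≤ r) : r ^ 2 ≤ G S r := by
  have h1 : ∫ x in (0 : ℝ)..r, 2 * x = r ^ 2 := by
    rw [intervalIntegral.integral_const_mul, integral_id]; ring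
  rw [← h1]
  refine intervalIntegral.integral_mono_on hr (by apply Continuous.intervalIntegrable; fun_prop)
    ((spd_contDiff hS).continuous.intervalIntegrable _ _) fun x hx => ?_
  apply Real.le_sqrt_of_sq_le
  have := dsF_pos hS x
  nlinarith [sq_nonneg (dsF S x)]

theorem G_surjective {S : ℝ} (hS : 0 < S) : Function.Surjective (G S) := by
  have ht : Tendsto (G S) atTop atTop := by
    refine tendsto_atTop_mono' _ ?_ (tendsto_pow_atTop (α := ℝ) (n := 2) (by norm_num))
    filter_upwards [eventually_ge_atTop 0] with r hr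
    exact G_ge hS hr
  refine (G_contDiff hS).continuous.surjective ht ?_
  have : G S = fun r => - G S (-r) := by funext r; rw [G_neg, neg_neg]
  rw [this]
  exact tendsto_neg_atTop_atBot.comp (ht.comp tendsto_neg_atBot_atTop)

namespace Data

variable (d : Data)

/-- length of the core -/
noncomputable def len : ℝ := ∫ x in (0 : ℝ)..π, d.rho x

/-- arc length along the core -/
noncomputable def ell (θ : ℝ) : ℝ := ∫ x in (0 : ℝ)..θ, d.rho x

theorem ell_hasDerivAt (θ : ℝ) : HasDerivAt d.ell (d.rho θ) θ :=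
  (d.hrho.continuous.integral_hasStrictDerivAt 0 θ).hasDerivAt

theorem ell_contDiff : ContDiff ℝ ∞ d.ell := contDiff_primitive d.hrho

theorem ell_add_pi (θ : ℝ) : d.ell (θ + π) = d.ell θ + d.len := by
  have hi : ∀ a b, IntervalIntegrable d.rho MeasureTheory.volume a b := fun a b =>
    d.hrho.continuous.intervalIntegrable a b
  have hper : Function.Periodic d.rho π := d.per_rho
  have h1 := hper.intervalIntegral_add_eq θ 0
  rw [zero_add] at h1
  rw [ell, ell, len, ← intervalIntegral.integral_add_adjacent_intervals (hi 0 θ) (hi θ (θ + π)), h1]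

theorem bounds : ∃ C > 0, ∃ m > 0, (∀ θ, |d.dlam θ| ≤ C * d.rho θ) ∧ (∀ θ, m ≤ d.rho θ) ∧
    ∀ θ, |d.lam θ| ≤ C := by
  have hdl : d.dlam = deriv d.lam := funext fun θ => (d.dl θ).deriv.symm
  have hcdl : Continuous d.dlam := by
    rw [hdl]
    exact d.hlam.continuous_deriv (by simp)
  have hdlper : ∀ θ, d.dlam (θ + π) = - d.dlam θ := by
    intro θ
    have h1 : HasDerivAt (fun x => d.lam (x + π)) (d.dlam (θ + π)) θ := by
      have := (d.dl (θ + π)).comp_add_const θ π
      exact this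
    have h2 : (fun x => d.lam (x + π)) = fun x => - d.lam x := funext d.per_lam
    rw [h2] at h1
    exact h1.unique (d.dl θ).neg
  have hrc := d.hrho.continuous
  have hlc := d.hlam.continuous
  have hp0 : ∀ θ, d.rho θ ≠ 0 := fun θ => (d.rho_pos θ).ne'
  obtain ⟨C1, hC1, h1⟩ := bounded_of_periodic (f := fun θ => |d.dlam θ| / d.rho θ) (c := π)
    (by intro θ; simp only [hdlper, d.per_rho, abs_neg]) pi_ne_zero (by
      exact (hcdl.abs).div hrc hp0)
  obtain ⟨C2, hC2, h2⟩ := bounded_of_periodic (f := fun θ => (d.rho θ)⁻¹) (c := π)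
    (by intro θ; simp only [d.per_rho]) pi_ne_zero (hrc.inv₀ hp0)
  obtain ⟨C3, hC3, h3⟩ := bounded_of_periodic (f := fun θ => |d.lam θ|) (c := π)
    (by intro θ; simp only [d.per_lam, abs_neg]) pi_ne_zero hlc.abs
  refine ⟨max C1 C3, by positivity, C2⁻¹, by positivity, fun θ => ?_, fun θ => ?_, fun θ => ?_⟩
  · have h4 := (le_abs_self _).trans (h1 θ)
    rw [div_le_iff₀ (d.rho_pos θ)] at h4
    exact h4.trans (mul_le_mul_of_nonneg_right (le_max_left _ _) (d.rho_pos θ).le)
  · have h4 := (le_abs_self _).trans (h2 θ)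
    exact (inv_le_comm₀ (d.rho_pos θ) hC2).1 h4
  · have h4 := (le_abs_self _).trans (h3 θ)
    exact h4.trans (le_max_right _ _)

/-- the developing map in the parameters `(θ, r)` -/
noncomputable def Psi (S : ℝ) (p : ℝ × ℝ) : ℝ × ℝ :=
  (d.ell p.1 + sF S p.2 * d.lam p.1, G S p.2)

theorem Psi_glide (S : ℝ) (p : ℝ × ℝ) : d.Psi S (glide π p) = glide d.len (d.Psi S p) := by
  simp only [Psi, glide_apply, d.ell_add_pi, d.per_lam, sF_neg, G_neg]
  ext
  · simp only; ring
  · rfl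

theorem Psi_contDiff {S : ℝ} (hS : 0 < S) : ContDiff ℝ ∞ (d.Psi S) := by
  have h1 := d.ell_contDiff
  have h2 := d.hlam
  have h3 := sF_contDiff S
  have h4 := G_contDiff hS
  unfold Psi
  fun_prop

theorem Psi_hasFDerivAt {S : ℝ} (hS : 0 < S) (p : ℝ × ℝ) :
    HasFDerivAt (d.Psi S)
      ((((d.rho p.1 + sF S p.2 * d.dlam p.1) • ContinuousLinearMap.fst ℝ ℝ ℝ +
        (dsF S p.2 * d.lam p.1) • ContinuousLinearMap.snd ℝ ℝ ℝ)).prod
        ((spd S p.2) • ContinuousLinearMap.snd ℝ ℝ ℝ)) p := by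
  have h1 : HasFDerivAt (fun p : ℝ × ℝ => d.ell p.1)
      ((d.rho p.1) • ContinuousLinearMap.fst ℝ ℝ ℝ) p :=
    (d.ell_hasDerivAt p.1).comp_hasFDerivAt p hasFDerivAt_fst
  have h2 : HasFDerivAt (fun p : ℝ × ℝ => d.lam p.1)
      ((d.dlam p.1) • ContinuousLinearMap.fst ℝ ℝ ℝ) p :=
    (d.dl p.1).comp_hasFDerivAt p hasFDerivAt_fst
  have h3 : HasFDerivAt (fun p : ℝ × ℝ => sF S p.2)
      ((dsF S p.2) • ContinuousLinearMap.snd ℝ ℝ ℝ) p :=
    (sF_hasDerivAt S p.2).comp_hasFDerivAt p hasFDerivAt_snd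
  have h4 : HasFDerivAt (fun p : ℝ × ℝ => G S p.2)
      ((spd S p.2) • ContinuousLinearMap.snd ℝ ℝ ℝ) p :=
    (G_hasDerivAt hS p.2).comp_hasFDerivAt p hasFDerivAt_snd
  refine ((h1.add (h3.mul h2)).prodMk h4).congr_fderiv ?_
  refine ContinuousLinearMap.ext fun u => ?_
  ext
  · simp; ring
  · simp

theorem Psi_fst_pos {C S : ℝ} (hS : 0 < S) (hC : ∀ θ, |d.dlam θ| ≤ C * d.rho θ)
    (hSC : S * C ≤ 1) (r θ : ℝ) : 0 < d.rho θ + sF S r * d.dlam θ := by
  have h1 := sF_abs_lt hS r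
  have h2 := hC θ
  have h3 := d.rho_pos θ
  have h4 : |sF S r * d.dlam θ| < d.rho θ ∨ d.dlam θ = 0 := by
    by_cases h : d.dlam θ = 0
    · exact Or.inr h
    · left
      rw [abs_mul]
      have h5 : 0 < |d.dlam θ| := abs_pos.2 h
      calc |sF S r| * |d.dlam θ| < S * |d.dlam θ| := by nlinarith
        _ ≤ S * (C * d.rho θ) := by gcongr
        _ = (S * C) * d.rho θ := by ring
        _ ≤ 1 * d.rho θ := by gcongr
        _ = d.rho θ := one_mul _
  rcases h4 with h4 | h4
  · have := neg_abs_le (sF S r * d.dlam θ)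
    linarith
  · rw [h4]; linarith

theorem Psi_bijective {C m S : ℝ} (hS : 0 < S) (hm : 0 < m)
    (hC : ∀ θ, |d.dlam θ| ≤ C * d.rho θ) (hm2 : ∀ θ, m ≤ d.rho θ) (hl : ∀ θ, |d.lam θ| ≤ C)
    (hSC : S * C ≤ 1) : Function.Bijective (d.Psi S) := by
  have hder : ∀ r θ, HasDerivAt (fun θ => d.ell θ + sF S r * d.lam θ)
      (d.rho θ + sF S r * d.dlam θ) θ := fun r θ =>
    (d.ell_hasDerivAt θ).add ((d.dl θ).const_mul _)
  have hmono : ∀ r, StrictMono (fun θ => d.ell θ + sF S r * d.lam θ) := fun r =>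
    strictMono_of_deriv_pos fun θ => by
      rw [(hder r θ).deriv]; exact d.Psi_fst_pos hS hC hSC r θ
  constructor
  · rintro ⟨θ, r⟩ ⟨θ', r'⟩ h
    simp only [Psi, Prod.mk.injEq] at h
    have h2 : r = r' := (G_strictMono hS).injective h.2
    subst h2
    have h1 : θ = θ' := (hmono r).injective h.1
    rw [h1]
  · rintro ⟨v, t⟩
    obtain ⟨r, hr⟩ := G_surjective hS t
    have hbd : ∀ θ, |sF S r * d.lam θ| ≤ S * C := by
      intro θ
      rw [abs_mul]
      have h1 := sF_abs_lt hS r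
      have h2 := hl θ
      have h3 := abs_nonneg (sF S r)
      have h4 := abs_nonneg (d.lam θ)
      nlinarith
    have hell1 : ∀ θ, 0 ≤ θ → m * θ ≤ d.ell θ := by
      intro θ hθ
      have h1 : ∫ x in (0 : ℝ)..θ, m = m * θ := by simp; ring
      rw [← h1]
      exact intervalIntegral.integral_mono_on hθ (by simp)
        (d.hrho.continuous.intervalIntegrable _ _) fun x _ => hm2 x
    have hell2 : ∀ θ, θ ≤ 0 → d.ell θ ≤ m * θ := by
      intro θ hθ
      have h1 : ∫ x in θ..(0 : ℝ), m = - (m * θ) := by simp; ring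
      have h2 : ∫ x in θ..(0 : ℝ), m ≤ ∫ x in θ..(0 : ℝ), d.rho x :=
        intervalIntegral.integral_mono_on hθ (by simp)
        (d.hrho.continuous.intervalIntegrable _ _) fun x _ => hm2 x
      rw [ell, intervalIntegral.integral_symm]
      linarith
    have hcont : Continuous (fun θ => d.ell θ + sF S r * d.lam θ) := by
      have h1 := d.ell_contDiff.continuous
      have h2 := d.hlam.continuous
      fun_prop
    have hsurj : Function.Surjective (fun θ => d.ell θ + sF S r * d.lam θ) := by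
      refine hcont.surjective ?_ ?_
      · refine tendsto_atTop_mono' _ (f₁ := fun θ => m * θ + (-(S * C))) ?_ ?_
        · filter_upwards [eventually_ge_atTop 0] with θ hθ
          have h1 := hell1 θ hθ
          have h2 := neg_le_of_abs_le (hbd θ)
          linarith
        · exact tendsto_atTop_add_const_right _ _ (tendsto_id.const_mul_atTop hm)
      · refine tendsto_atBot_mono' _ (f₁ := fun θ => m * θ + (S * C)) ?_ ?_
        · filter_upwards [eventually_le_atBot 0] with θ hθ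
          have h1 := hell2 θ hθ
          have h2 := le_of_abs_le (hbd θ)
          linarith
        · exact tendsto_atBot_add_const_right _ _ (tendsto_id.const_mul_atBot hm)
    obtain ⟨θ, hθ⟩ := hsurj v
    exact ⟨(θ, r), Prod.ext hθ hr⟩

end Data

end Pool.Agent.H48R3.MB
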