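import Mathlib
import Pool.Agent.H48R3.MB.Build

set_option autoImplicit false

namespace Pool.Agent.H48R3.MB

open scoped ContDiff Topology
open Set Filter Topology Real

namespace Data

variable (d : Data)

/-- the surface in Euclidean 4-space in the parameters `(θ, r)` -/
noncomputable def F (S : ℝ) (p : ℝ × ℝ) : E4 :=
  !₂[d.Y (p.1, sF S p.2) 0, d.Y (p.1, sF S p.2) 1, d.Y (p.1, sF S p.2) 2, p.2 ^ 2]

theorem F_glide (S : ℝ) (p : ℝ × ℝ) : d.F S (glide π p) = d.F S p := by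
  have h1 : d.Y ((glide π p).1, sF S (glide π p).2) = d.Y (p.1, sF S p.2) := by
    rw [← d.Y_glide (p.1, sF S p.2)]
    simp only [glide_apply, sF_neg]
  have h2 : (glide π p).2 ^ 2 = p.2 ^ 2 := by simp [glide_apply]
  simp only [F, h1, h2]

theorem F_contDiff (S : ℝ) : ContDiff ℝ ∞ (d.F S) := by
  have h0 := sF_contDiff S
  have h1 : ∀ i, ContDiff ℝ ∞ (fun p : ℝ × ℝ => d.Y (p.1, sF S p.2) i) := fun i =>
    (d.Y_contDiff i).comp (contDiff_fst.prodMk (h0.comp contDiff_snd))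
  rw [contDiff_euclidean]
  intro i
  fin_cases i
  · exact h1 0
  · exact h1 1
  · exact h1 2
  · change ContDiff ℝ ∞ fun p : ℝ × ℝ => p.2 ^ 2
    fun_prop

theorem F_hasFDerivAt (S : ℝ) (p u : ℝ × ℝ) :
    ‖fderiv ℝ (d.F S) p u‖ ^ 2 =
      ((d.rho p.1 + sF S p.2 * d.dlam p.1) * u.1 + dsF S p.2 * d.lam p.1 * u.2) ^ 2 +
        (spd S p.2 * u.2) ^ 2 := by
  have hd : DifferentiableAt ℝ (d.F S) p := (d.F_contDiff S).differentiable (by simp) p
  have h1 : ∀ i, HasFDerivAt (fun p : ℝ × ℝ => d.Y (p.1, sF S p.2) i)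
      (((d.rho p.1 + sF S p.2 * d.dlam p.1) * d.T i p.1) • ContinuousLinearMap.fst ℝ ℝ ℝ +
        (dsF S p.2 * d.D i p.1) • ContinuousLinearMap.snd ℝ ℝ ℝ) p := by
    intro i
    have h3 : HasFDerivAt (fun p : ℝ × ℝ => sF S p.2)
        ((dsF S p.2) • ContinuousLinearMap.snd ℝ ℝ ℝ) p :=
      (sF_hasDerivAt S p.2).comp_hasFDerivAt p hasFDerivAt_snd
    have h4 : HasFDerivAt (fun p : ℝ × ℝ => (p.1, sF S p.2))
        ((ContinuousLinearMap.fst ℝ ℝ ℝ).prod ((dsF S p.2) • ContinuousLinearMap.snd ℝ ℝ ℝ)) p :=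
      hasFDerivAt_fst.prodMk h3
    refine ((d.Y_hasFDerivAt (p.1, sF S p.2) i).comp p h4).congr_fderiv ?_
    refine ContinuousLinearMap.ext fun u => ?_
    simp
    ring
  have hcomp : ∀ i : Fin 4, (fderiv ℝ (d.F S) p u) i = fderiv ℝ (fun q => d.F S q i) p u := by
    intro i
    have := (EuclideanSpace.proj (𝕜 := ℝ) i : E4 →L[ℝ] ℝ).hasFDerivAt.comp p hd.hasFDerivAt
    have h2 : fderiv ℝ (fun q => d.F S q i) p = _ := this.fderiv
    rw [h2]; rfl
  have e0 : (fderiv ℝ (d.F S) p u) 0 = (d.rho p.1 + sF S p.2 * d.dlam p.1) * d.T 0 p.1 * u.1 +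
      dsF S p.2 * d.D 0 p.1 * u.2 := by
    rw [hcomp]
    have : (fun q => d.F S q 0) = fun q => d.Y (q.1, sF S q.2) 0 := rfl
    rw [this, (h1 0).fderiv]
    simp
  have e1 : (fderiv ℝ (d.F S) p u) 1 = (d.rho p.1 + sF S p.2 * d.dlam p.1) * d.T 1 p.1 * u.1 +
      dsF S p.2 * d.D 1 p.1 * u.2 := by
    rw [hcomp]
    have : (fun q => d.F S q 1) = fun q => d.Y (q.1, sF S q.2) 1 := rfl
    rw [this, (h1 1).fderiv]
    simp
  have e2 : (fderiv ℝ (d.F S) p u) 2 = (d.rho p.1 + sF S p.2 * d.dlam p.1) * d.T 2 p.1 * u.1 +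
      dsF S p.2 * d.D 2 p.1 * u.2 := by
    rw [hcomp]
    have : (fun q => d.F S q 2) = fun q => d.Y (q.1, sF S q.2) 2 := rfl
    rw [this, (h1 2).fderiv]
    simp
  have e3 : (fderiv ℝ (d.F S) p u) 3 = 2 * p.2 * u.2 := by
    rw [hcomp]
    have : (fun q => d.F S q 3) = fun q : ℝ × ℝ => q.2 ^ 2 := rfl
    have h5 : HasFDerivAt (fun q : ℝ × ℝ => q.2 ^ 2)
        ((2 * p.2) • ContinuousLinearMap.snd ℝ ℝ ℝ) p := by
      have h6 : HasDerivAt (fun x : ℝ => x ^ 2) (2 * p.2) p.2 := by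
        simpa using hasDerivAt_pow 2 p.2
      exact h6.comp_hasFDerivAt p hasFDerivAt_snd
    rw [this, h5.fderiv]
    simp
  rw [EuclideanSpace.norm_sq_eq]
  simp only [Fin.sum_univ_four, Real.norm_eq_abs, sq_abs, e0, e1, e2, e3]
  have hTT := d.TT p.1
  have hTD := d.TD p.1
  have hDD := d.DD p.1
  have hs := spd_sq S p.2
  simp only [Fin.sum_univ_three] at hTT hTD hDD
  have : (spd S p.2 * u.2) ^ 2 = (dsF S p.2 ^ 2 + (2 * p.2) ^ 2) * u.2 ^ 2 := by
    rw [mul_pow, hs]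
  rw [this]
  linear_combination ((d.rho p.1 + sF S p.2 * d.dlam p.1) * u.1) ^ 2 * hTT +
    2 * ((d.rho p.1 + sF S p.2 * d.dlam p.1) * u.1) * (dsF S p.2 * u.2) * hTD +
    (dsF S p.2 * u.2) ^ 2 * hDD

theorem len_pos : 0 < d.len := by
  unfold len
  exact intervalIntegral.intervalIntegral_pos_of_pos (d.hrho.continuous.intervalIntegrable _ _)
    d.rho_pos pi_pos

/-- Existence of the embedding. -/
theorem exists_embedding : ∃ S0 > 0, ∀ S, 0 < S → S ≤ S0 →
    ∃ X : MoebiusBand d.len → E4, IsIsometricEmbedding d.len X ∧ range X = range (d.F S) := by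
  obtain ⟨C, hC, m, hm, hC1, hm2, hl⟩ := d.bounds
  obtain ⟨S1, hS1, hinj⟩ := d.Y_injective_near
  refine ⟨min S1 C⁻¹, by positivity, fun S hS hS0 => ?_⟩
  have hSS1 : S ≤ S1 := hS0.trans (min_le_left _ _)
  have hSC : S * C ≤ 1 := by
    have h1 : S ≤ C⁻¹ := hS0.trans (min_le_right _ _)
    calc S * C ≤ C⁻¹ * C := by gcongr
      _ = 1 := inv_mul_cancel₀ hC.ne'
  have hbij := d.Psi_bijective hS hm hC1 hm2 hl hSC
  have hPd : ∀ p, ∃ e : (ℝ × ℝ) ≃L[ℝ] (ℝ × ℝ), (∀ u : ℝ × ℝ, e u =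
      ((d.rho p.1 + sF S p.2 * d.dlam p.1) * u.1 + dsF S p.2 * d.lam p.1 * u.2,
        spd S p.2 * u.2)) ∧ HasFDerivAt (d.Psi S) (e : ℝ × ℝ →L[ℝ] ℝ × ℝ) p := by
    intro p
    obtain ⟨e, he⟩ := exists_equiv (d.rho p.1 + sF S p.2 * d.dlam p.1) (dsF S p.2 * d.lam p.1) 0
      (spd S p.2) (by
        have h1 := (d.Psi_fst_pos hS hC1 hSC p.2 p.1).ne'
        have h2 := (spd_pos hS p.2).ne'
        simpa using ⟨h1, h2⟩)
    refine ⟨e, fun u => by rw [he]; simp, (d.Psi_hasFDerivAt hS p).congr_fderiv ?_⟩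
    refine ContinuousLinearMap.ext fun u => ?_
    refine Eq.symm ?_
    change e u = _
    rw [he]
    simp
  obtain ⟨g, hg1, hg2, hg3⟩ := smooth_inverse (d.Psi S) (d.Psi_contDiff hS) hbij
    (fun p => by obtain ⟨e, -, he⟩ := hPd p; exact ⟨e, he⟩)
  have hgg : ∀ q, g (glide d.len q) = glide π (g q) := by
    intro q
    apply hbij.1
    rw [hg2, d.Psi_glide, hg2]
  let f : ℝ × ℝ → E4 := fun q => d.F S (g q)
  have hf : ContDiff ℝ ∞ f := (d.F_contDiff S).comp hg3
  have hfg : ∀ q, f (glide d.len q) = f q := by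
    intro q
    simp only [f, hgg, d.F_glide]
  have hfiso : ∀ p u : ℝ × ℝ, ‖fderiv ℝ f p u‖ ^ 2 = u.1 ^ 2 + u.2 ^ 2 := by
    intro p u
    have hF : HasFDerivAt (d.F S) (fderiv ℝ (d.F S) (g p)) (g p) :=
      ((d.F_contDiff S).differentiable (by simp) (g p)).hasFDerivAt
    have hG : HasFDerivAt g (fderiv ℝ g p) p := (hg3.differentiable (by simp) p).hasFDerivAt
    have h1 : fderiv ℝ f p = (fderiv ℝ (d.F S) (g p)).comp (fderiv ℝ g p) := (hF.comp p hG).fderiv
    obtain ⟨e, he, hed⟩ := hPd (g p)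
    have h2 : (e : ℝ × ℝ →L[ℝ] ℝ × ℝ).comp (fderiv ℝ g p) = ContinuousLinearMap.id ℝ (ℝ × ℝ) := by
      have h3 := hed.comp p hG
      have h4 : d.Psi S ∘ g = id := funext hg2
      rw [h4] at h3
      exact h3.unique (hasFDerivAt_id p)
    have h5 : e (fderiv ℝ g p u) = u := DFunLike.congr_fun h2 u
    rw [h1]
    change ‖fderiv ℝ (d.F S) (g p) (fderiv ℝ g p u)‖ ^ 2 = _
    rw [d.F_hasFDerivAt]
    rw [he] at h5
    conv_rhs => rw [← h5]
  let X : MoebiusBand d.len → E4 := descend d.len f hfg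
  have hX : ∀ p, X (proj d.len p) = f p := fun p => rfl
  have hXc : Continuous X := continuous_descend _ _ _ hf.continuous
  have hXi : Function.Injective X := by
    intro x y hxy
    obtain ⟨p, rfl⟩ := proj_surjective _ x
    obtain ⟨q, rfl⟩ := proj_surjective _ y
    rw [hX, hX] at hxy
    have h1 : d.Y ((g p).1, sF S (g p).2) = d.Y ((g q).1, sF S (g q).2) := by
      funext i
      fin_cases i
      · exact congrArg (fun z : E4 => z 0) hxy
      · exact congrArg (fun z : E4 => z 1) hxy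
      · exact congrArg (fun z : E4 => z 2) hxy
    have h2 := hinj _ _ ((sF_abs_lt hS (g p).2).trans_le hSS1)
      ((sF_abs_lt hS (g q).2).trans_le hSS1) h1
    obtain ⟨n, hn⟩ := proj_eq_iff.1 h2
    -- transport to the parameters `(θ, r)`
    have h3 : ∀ (n : ℤ) (p : ℝ × ℝ), (glide π ^ n) (p.1, sF S p.2) =
        (((glide π ^ n) p).1, sF S ((glide π ^ n) p).2) := by
      intro n p
      induction n using Int.induction_on with
      | zero => simp
      | succ n ih =>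
        rw [glide_zpow_succ, glide_zpow_succ]
        rw [ih]
        simp only [sF_neg]
      | pred n ih =>
        rw [glide_zpow_pred, glide_zpow_pred]
        rw [ih]
        simp only [sF_neg]
    rw [h3] at hn
    have h4 : (glide π ^ n) (g q) = g p := by
      have h5 := (Prod.ext_iff.1 hn).1
      have h6 := (sF_strictMono hS).injective (Prod.ext_iff.1 hn).2
      exact Prod.ext h5 h6
    have h5 : ∀ (n : ℤ) (q : ℝ × ℝ), g ((glide d.len ^ n) q) = (glide π ^ n) (g q) := by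
      intro n q
      induction n using Int.induction_on with
      | zero => simp
      | succ n ih =>
        rw [add_comm, zpow_one_add, zpow_one_add, Equiv.Perm.mul_apply, Equiv.Perm.mul_apply,
          hgg, ih]
      | pred n ih =>
        have h6 : ∀ q, g ((glide d.len)⁻¹ q) = (glide π)⁻¹ (g q) := by
          intro q
          have h7 : g q = glide π (g ((glide d.len)⁻¹ q)) := by
            rw [← hgg]; simp
          rw [h7]; simp
        rw [sub_eq_add_neg, add_comm, zpow_add, zpow_add, zpow_neg_one, zpow_neg_one,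
          Equiv.Perm.mul_apply, Equiv.Perm.mul_apply, h6, ih]
    rw [← h5] at h4
    have h6 : (glide d.len ^ n) q = p := by
      have := congrArg (d.Psi S) h4
      rwa [hg2, hg2] at this
    rw [proj_eq_iff]
    exact ⟨n, h6⟩
  have hproper : IsProperMap X := by
    rw [isProperMap_iff_isCompact_preimage]
    refine ⟨hXc, fun K hK => ?_⟩
    obtain ⟨R, hR⟩ := hK.isBounded.exists_norm_le
    have hR0 : 0 ≤ R ∨ K = ∅ := by
      rcases K.eq_empty_or_nonempty with h | ⟨y, hy⟩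
      · exact Or.inr h
      · exact Or.inl ((norm_nonneg y).trans (hR y hy))
    rcases hR0 with hR0 | hR0
    swap
    · rw [hR0, preimage_empty]; exact isCompact_empty
    have hcomp : IsCompact (proj d.len '' (Icc 0 d.len ×ˢ Icc (-(G S √R)) (G S √R))) :=
      (isCompact_Icc.prod isCompact_Icc).image (continuous_proj _)
    refine hcomp.of_isClosed_subset (hK.isClosed.preimage hXc) ?_
    intro x hx
    obtain ⟨p, rfl⟩ := proj_surjective _ x
    have h1 : ‖f p‖ ≤ R := hR _ hx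
    have h2 : (g p).2 ^ 2 ≤ R := by
      have h3 : ‖(f p) 3‖ ≤ ‖f p‖ := PiLp.norm_apply_le _ _
      have h4 : (f p) 3 = (g p).2 ^ 2 := rfl
      rw [h4, Real.norm_eq_abs, abs_of_nonneg (sq_nonneg _)] at h3
      exact h3.trans h1
    have h3 : |(g p).2| ≤ √R := Real.abs_le_sqrt h2
    have h4 : |p.2| ≤ G S √R := by
      have h5 : p.2 = G S (g p).2 := by
        have := congrArg Prod.snd (hg2 p)
        exact this.symm
      rw [h5]
      have h6 := abs_le.1 h3
      rw [abs_le]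
      constructor
      · rw [← G_neg]; exact (G_strictMono hS).monotone h6.1
      · exact (G_strictMono hS).monotone h6.2
    obtain ⟨n, hn⟩ := exists_rep d.len_pos p
    refine ⟨(glide d.len ^ n) p, ⟨⟨hn.1, hn.2.le⟩, ?_⟩, proj_zpow _ _ _⟩
    rw [mem_Icc, ← abs_le, glide_zpow_abs]
    exact h4
  refine ⟨X, ⟨?_, ?_, ?_⟩, ?_⟩
  · exact hf
  · exact hfiso
  · exact (Topology.IsClosedEmbedding.of_continuous_injective_isClosedMap hXc hXi
      hproper.isClosedMap).isEmbedding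
  · ext y
    constructor
    · rintro ⟨x, rfl⟩
      obtain ⟨p, rfl⟩ := proj_surjective _ x
      exact ⟨g p, rfl⟩
    · rintro ⟨q, rfl⟩
      refine ⟨proj d.len (d.Psi S q), ?_⟩
      rw [hX]
      simp only [f, hg1]

end Data

end Pool.Agent.H48R3.MB
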