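import Mathlib
import Pool.Agent.H48R3.MB.Embed

set_option autoImplicit false

namespace Pool.Agent.H48R3.MB

open scoped ContDiff Topology
open Set Filter Topology Real

namespace Curve

/-- the closed curve -/
noncomputable def cc : Fin 3 → ℝ → ℝ :=
  ![fun θ => sin θ * cos θ, fun θ => sin θ ^ 3 * cos θ, fun θ => sin θ ^ 6]

/-- its derivative -/
noncomputable def a : Fin 3 → ℝ → ℝ :=
  ![fun θ => 1 - 2 * sin θ ^ 2, fun θ => 3 * sin θ ^ 2 - 4 * sin θ ^ 4,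
    fun θ => 6 * sin θ ^ 5 * cos θ]

/-- its second derivative -/
noncomputable def da : Fin 3 → ℝ → ℝ :=
  ![fun θ => -4 * sin θ * cos θ, fun θ => 6 * sin θ * cos θ - 16 * sin θ ^ 3 * cos θ,
    fun θ => 30 * sin θ ^ 4 - 36 * sin θ ^ 6]

/-- a field in the direction of the binormal -/
noncomputable def b : Fin 3 → ℝ → ℝ :=
  ![fun θ => 27 * sin θ ^ 5 - 48 * sin θ ^ 7 + 24 * sin θ ^ 9,
    fun θ => -(15 * sin θ ^ 3 - 36 * sin θ ^ 5 + 24 * sin θ ^ 7),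
    fun θ => cos θ * (3 - 8 * sin θ ^ 2 + 8 * sin θ ^ 4)]

/-- its derivative -/
noncomputable def db : Fin 3 → ℝ → ℝ :=
  ![fun θ => (135 * sin θ ^ 4 - 336 * sin θ ^ 6 + 216 * sin θ ^ 8) * cos θ,
    fun θ => -((45 * sin θ ^ 2 - 180 * sin θ ^ 4 + 168 * sin θ ^ 6) * cos θ),
    fun θ => -19 * sin θ + 56 * sin θ ^ 3 - 40 * sin θ ^ 5]

/-- the polynomial in the formula for `lam` -/
noncomputable def q (θ : ℝ) : ℝ :=
  135 - 480 * sin θ ^ 2 + 720 * sin θ ^ 4 - 576 * sin θ ^ 6 + 192 * sin θ ^ 8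

theorem cc_deriv (i : Fin 3) (θ : ℝ) : HasDerivAt (cc i) (a i θ) θ := by
  have hs := Real.hasDerivAt_sin θ
  have hc := Real.hasDerivAt_cos θ
  have h := Real.sin_sq_add_cos_sq θ
  fin_cases i
  · refine (hs.mul hc).congr_deriv ?_
    simp [a]
    linear_combination h
  · refine ((hs.pow 3).mul hc).congr_deriv ?_
    simp [a]
    linear_combination 3 * sin θ ^ 2 * h
  · refine (hs.pow 6).congr_deriv ?_
    simp [a]

theorem a_deriv (i : Fin 3) (θ : ℝ) : HasDerivAt (a i) (da i θ) θ := by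
  have hs := Real.hasDerivAt_sin θ
  have hc := Real.hasDerivAt_cos θ
  have h := Real.sin_sq_add_cos_sq θ
  fin_cases i
  · refine (((hs.pow 2).const_mul 2).const_sub 1).congr_deriv ?_
    simp [da]
    ring
  · refine (((hs.pow 2).const_mul 3).sub ((hs.pow 4).const_mul 4)).congr_deriv ?_
    simp [da]
    ring
  · refine (((hs.pow 5).const_mul 6).mul hc).congr_deriv ?_
    simp [da]
    linear_combination 30 * sin θ ^ 4 * h

theorem b_deriv (i : Fin 3) (θ : ℝ) : HasDerivAt (b i) (db i θ) θ := by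
  have hs := Real.hasDerivAt_sin θ
  have hc := Real.hasDerivAt_cos θ
  have h := Real.sin_sq_add_cos_sq θ
  fin_cases i
  · refine ((((hs.pow 5).const_mul 27).sub ((hs.pow 7).const_mul 48)).add
      ((hs.pow 9).const_mul 24)).congr_deriv ?_
    simp [db]
    ring
  · refine ((((hs.pow 3).const_mul 15).sub ((hs.pow 5).const_mul 36)).add
      ((hs.pow 7).const_mul 24)).neg.congr_deriv ?_
    simp [db]
    ring
  · refine (hc.mul (((hs.pow 2).const_mul 8).const_sub 3 |>.add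
      ((hs.pow 4).const_mul 8))).congr_deriv ?_
    simp [db]
    linear_combination (-16 * sin θ + 32 * sin θ ^ 3) * h

theorem X0 (θ : ℝ) : a 1 θ * da 2 θ - a 2 θ * da 1 θ = 2 * sin θ * b 0 θ := by
  have h := Real.sin_sq_add_cos_sq θ
  simp [a, da, b]
  linear_combination (-(36 * sin θ ^ 6 - 96 * sin θ ^ 8)) * h

theorem X1 (θ : ℝ) : a 2 θ * da 0 θ - a 0 θ * da 2 θ = 2 * sin θ * b 1 θ := by
  have h := Real.sin_sq_add_cos_sq θ
  simp [a, da, b]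
  linear_combination (-24 * sin θ ^ 6) * h

theorem X2 (θ : ℝ) : a 0 θ * da 1 θ - a 1 θ * da 0 θ = 2 * sin θ * b 2 θ := by
  simp [a, da, b]
  ring

theorem Y0 (θ : ℝ) : b 1 θ * db 2 θ - b 2 θ * db 1 θ = sin θ ^ 2 * q θ * a 0 θ := by
  have h := Real.sin_sq_add_cos_sq θ
  simp [a, db, b, q]
  linear_combination ((3 - 8 * sin θ ^ 2 + 8 * sin θ ^ 4) *
    (45 * sin θ ^ 2 - 180 * sin θ ^ 4 + 168 * sin θ ^ 6)) * h

theorem Y1 (θ : ℝ) : b 2 θ * db 0 θ - b 0 θ * db 2 θ = sin θ ^ 2 * q θ * a 1 θ := by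
  have h := Real.sin_sq_add_cos_sq θ
  simp [a, db, b, q]
  linear_combination ((3 - 8 * sin θ ^ 2 + 8 * sin θ ^ 4) *
    (135 * sin θ ^ 4 - 336 * sin θ ^ 6 + 216 * sin θ ^ 8)) * h

theorem Y2 (θ : ℝ) : b 0 θ * db 1 θ - b 1 θ * db 0 θ = sin θ ^ 2 * q θ * a 2 θ := by
  simp [a, db, b, q]
  ring

theorem ab (θ : ℝ) : a 0 θ * b 0 θ + a 1 θ * b 1 θ + a 2 θ * b 2 θ = 0 := by
  have h := Real.sin_sq_add_cos_sq θ
  simp [a, b]
  linear_combination (6 * sin θ ^ 5 * (3 - 8 * sin θ ^ 2 + 8 * sin θ ^ 4)) * h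

/-- squared speed -/
noncomputable def rho2 (θ : ℝ) : ℝ := a 0 θ ^ 2 + a 1 θ ^ 2 + a 2 θ ^ 2

/-- squared norm of `b` -/
noncomputable def bet2 (θ : ℝ) : ℝ := b 0 θ ^ 2 + b 1 θ ^ 2 + b 2 θ ^ 2

theorem rho2_pos (θ : ℝ) : 0 < rho2 θ := by
  by_contra hcon
  have h0 : a 0 θ ^ 2 = 0 := by
    unfold rho2 at hcon
    nlinarith [sq_nonneg (a 0 θ), sq_nonneg (a 1 θ), sq_nonneg (a 2 θ)]
  have h1 : a 1 θ ^ 2 = 0 := by
    unfold rho2 at hcon
    nlinarith [sq_nonneg (a 0 θ), sq_nonneg (a 1 θ), sq_nonneg (a 2 θ)]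
  rw [sq_eq_zero_iff] at h0 h1
  simp [a] at h0 h1
  have h2 : sin θ ^ 2 = 1 / 2 := by linarith
  have h3 : sin θ ^ 4 = 1 / 4 := by
    calc sin θ ^ 4 = (sin θ ^ 2) ^ 2 := by ring
      _ = 1 / 4 := by rw [h2]; norm_num
  rw [h2, h3] at h1
  norm_num at h1

theorem bet2_pos (θ : ℝ) : 0 < bet2 θ := by
  by_contra hcon
  have h0 : b 0 θ ^ 2 = 0 := by
    unfold bet2 at hcon
    nlinarith [sq_nonneg (b 0 θ), sq_nonneg (b 1 θ), sq_nonneg (b 2 θ)]
  have h2 : b 2 θ ^ 2 = 0 := by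
    unfold bet2 at hcon
    nlinarith [sq_nonneg (b 0 θ), sq_nonneg (b 1 θ), sq_nonneg (b 2 θ)]
  rw [sq_eq_zero_iff] at h0 h2
  simp [b] at h0 h2
  have hne : 3 - 8 * sin θ ^ 2 + 8 * sin θ ^ 4 ≠ 0 := by
    nlinarith [sq_nonneg (2 * sin θ ^ 2 - 1)]
  rcases h2 with h2 | h2
  · have h := Real.sin_sq_add_cos_sq θ
    rw [h2] at h
    have h3 : sin θ ^ 2 = 1 := by linarith
    have h4 : sin θ ^ 5 = sin θ := by
      calc sin θ ^ 5 = (sin θ ^ 2) ^ 2 * sin θ := by ring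
        _ = sin θ := by rw [h3]; ring
    have h5 : sin θ ^ 7 = sin θ := by
      calc sin θ ^ 7 = (sin θ ^ 2) ^ 3 * sin θ := by ring
        _ = sin θ := by rw [h3]; ring
    have h6 : sin θ ^ 9 = sin θ := by
      calc sin θ ^ 9 = (sin θ ^ 2) ^ 4 * sin θ := by ring
        _ = sin θ := by rw [h3]; ring
    rw [h4, h5, h6] at h0
    have h7 : sin θ = 0 := by linarith
    rw [h7] at h3
    norm_num at h3
  · exact hne h2

theorem a_smooth (i : Fin 3) : ContDiff ℝ ∞ (a i) := by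
  fin_cases i
  · change ContDiff ℝ ∞ fun θ => 1 - 2 * sin θ ^ 2
    fun_prop
  · change ContDiff ℝ ∞ fun θ => 3 * sin θ ^ 2 - 4 * sin θ ^ 4
    fun_prop
  · change ContDiff ℝ ∞ fun θ => 6 * sin θ ^ 5 * cos θ
    fun_prop

theorem b_smooth (i : Fin 3) : ContDiff ℝ ∞ (b i) := by
  fin_cases i
  · change ContDiff ℝ ∞ fun θ => 27 * sin θ ^ 5 - 48 * sin θ ^ 7 + 24 * sin θ ^ 9
    fun_prop
  · change ContDiff ℝ ∞ fun θ => -(15 * sin θ ^ 3 - 36 * sin θ ^ 5 + 24 * sin θ ^ 7)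
    fun_prop
  · change ContDiff ℝ ∞ fun θ => cos θ * (3 - 8 * sin θ ^ 2 + 8 * sin θ ^ 4)
    fun_prop

theorem cc_smooth (i : Fin 3) : ContDiff ℝ ∞ (cc i) := by
  fin_cases i
  · change ContDiff ℝ ∞ fun θ => sin θ * cos θ
    fun_prop
  · change ContDiff ℝ ∞ fun θ => sin θ ^ 3 * cos θ
    fun_prop
  · change ContDiff ℝ ∞ fun θ => sin θ ^ 6
    fun_prop

theorem q_smooth : ContDiff ℝ ∞ q := by
  unfold q; fun_prop

/-- speed -/
noncomputable def rho (θ : ℝ) : ℝ := √(rho2 θ)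

/-- norm of `b` -/
noncomputable def bet (θ : ℝ) : ℝ := √(bet2 θ)

theorem rho_pos (θ : ℝ) : 0 < rho θ := Real.sqrt_pos.2 (rho2_pos θ)

theorem bet_pos (θ : ℝ) : 0 < bet θ := Real.sqrt_pos.2 (bet2_pos θ)

theorem rho_sq (θ : ℝ) : rho θ ^ 2 = rho2 θ := Real.sq_sqrt (rho2_pos θ).le

theorem bet_sq (θ : ℝ) : bet θ ^ 2 = bet2 θ := Real.sq_sqrt (bet2_pos θ).le

theorem rho_smooth : ContDiff ℝ ∞ rho := by
  have h := a_smooth
  exact ContDiff.sqrt ((((h 0).pow 2).add ((h 1).pow 2)).add ((h 2).pow 2))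
    fun θ => (rho2_pos θ).ne'

theorem bet_smooth : ContDiff ℝ ∞ bet := by
  have h := b_smooth
  exact ContDiff.sqrt ((((h 0).pow 2).add ((h 1).pow 2)).add ((h 2).pow 2))
    fun θ => (bet2_pos θ).ne'

theorem rho_deriv (θ : ℝ) :
    HasDerivAt rho ((a 0 θ * da 0 θ + a 1 θ * da 1 θ + a 2 θ * da 2 θ) / rho θ) θ := by
  have h := fun i => a_deriv i θ
  have h2 : HasDerivAt rho2 (2 * (a 0 θ * da 0 θ + a 1 θ * da 1 θ + a 2 θ * da 2 θ)) θ := by
    refine ((((h 0).pow 2).add ((h 1).pow 2)).add ((h 2).pow 2)).congr_deriv ?_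
    simp; ring
  refine (h2.sqrt (rho2_pos θ).ne').congr_deriv ?_
  change _ / (2 * rho θ) = _
  have := (rho_pos θ).ne'
  field_simp

theorem bet_deriv (θ : ℝ) :
    HasDerivAt bet ((b 0 θ * db 0 θ + b 1 θ * db 1 θ + b 2 θ * db 2 θ) / bet θ) θ := by
  have h := fun i => b_deriv i θ
  have h2 : HasDerivAt bet2 (2 * (b 0 θ * db 0 θ + b 1 θ * db 1 θ + b 2 θ * db 2 θ)) θ := by
    refine ((((h 0).pow 2).add ((h 1).pow 2)).add ((h 2).pow 2)).congr_deriv ?_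
    simp; ring
  refine (h2.sqrt (bet2_pos θ).ne').congr_deriv ?_
  change _ / (2 * bet θ) = _
  have := (bet_pos θ).ne'
  field_simp

/-- unit tangent -/
noncomputable def T (i : Fin 3) (θ : ℝ) : ℝ := a i θ / rho θ

/-- torsion over curvature -/
noncomputable def lam (θ : ℝ) : ℝ := sin θ * q θ * rho θ ^ 3 / (2 * bet θ ^ 3)

/-- ruling field -/
noncomputable def D (i : Fin 3) (θ : ℝ) : ℝ := lam θ * T i θ + b i θ / bet θ

theorem T_smooth (i : Fin 3) : ContDiff ℝ ∞ (T i) :=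
  (a_smooth i).div rho_smooth fun θ => (rho_pos θ).ne'

theorem lam_smooth : ContDiff ℝ ∞ lam := by
  refine ContDiff.div ?_ ?_ fun θ => ?_
  · exact (Real.contDiff_sin.mul q_smooth).mul (rho_smooth.pow 3)
  · exact contDiff_const.mul (bet_smooth.pow 3)
  · have := (bet_pos θ).ne'
    positivity

theorem D_smooth (i : Fin 3) : ContDiff ℝ ∞ (D i) :=
  (lam_smooth.mul (T_smooth i)).add ((b_smooth i).div bet_smooth fun θ => (bet_pos θ).ne')

/-- derivative of `lam` -/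
noncomputable def dlam (θ : ℝ) : ℝ := deriv lam θ

theorem lam_deriv (θ : ℝ) : HasDerivAt lam (dlam θ) θ :=
  (lam_smooth.differentiable (by simp) θ).hasDerivAt

theorem D_deriv (i : Fin 3) (θ : ℝ) : HasDerivAt (D i) (dlam θ * T i θ) θ := by
  have hr := (rho_pos θ).ne'
  have hb := (bet_pos θ).ne'
  have hT : HasDerivAt (T i) _ θ := (a_deriv i θ).div (rho_deriv θ) hr
  have hB : HasDerivAt (fun θ => b i θ / bet θ) _ θ := (b_deriv i θ).div (bet_deriv θ) hb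
  refine (((lam_deriv θ).mul hT).add hB).congr_deriv ?_
  have h0 := X0 θ
  have h1 := X1 θ
  have h2 := X2 θ
  have k0 := Y0 θ
  have k1 := Y1 θ
  have k2 := Y2 θ
  have hr2 : rho θ ^ 2 = a 0 θ ^ 2 + a 1 θ ^ 2 + a 2 θ ^ 2 := rho_sq θ
  have hb2 : bet θ ^ 2 = b 0 θ ^ 2 + b 1 θ ^ 2 + b 2 θ ^ 2 := bet_sq θ
  have key : sin θ * q θ * (rho θ ^ 2 * da i θ -
        (a 0 θ * da 0 θ + a 1 θ * da 1 θ + a 2 θ * da 2 θ) * a i θ) +
      2 * (bet θ ^ 2 * db i θ - (b 0 θ * db 0 θ + b 1 θ * db 1 θ + b 2 θ * db 2 θ) * b i θ) =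
      0 := by
    rw [hr2, hb2]
    fin_cases i
    · simp only [Fin.zero_eta, Fin.isValue]
      linear_combination sin θ * q θ * (a 2 θ * h1 - a 1 θ * h2) + 2 * (b 2 θ * k1 - b 1 θ * k2)
    · simp only [Fin.mk_one, Fin.isValue]
      linear_combination sin θ * q θ * (a 0 θ * h2 - a 2 θ * h0) + 2 * (b 0 θ * k2 - b 2 θ * k0)
    · simp only [Fin.reduceFinMk, Fin.isValue]
      linear_combination sin θ * q θ * (a 1 θ * h0 - a 0 θ * h1) + 2 * (b 1 θ * k0 - b 0 θ * k1)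
  simp only [T, lam]
  field_simp
  linear_combination rho θ * key

theorem TT (θ : ℝ) : ∑ i, T i θ ^ 2 = 1 := by
  have hr := (rho_pos θ).ne'
  have hr2 : rho θ ^ 2 = a 0 θ ^ 2 + a 1 θ ^ 2 + a 2 θ ^ 2 := rho_sq θ
  simp only [Fin.sum_univ_three, T]
  field_simp
  linear_combination -hr2

theorem TB (θ : ℝ) : ∑ i, T i θ * (b i θ / bet θ) = 0 := by
  have hr := (rho_pos θ).ne'
  have hb := (bet_pos θ).ne'
  have h := ab θ
  simp only [Fin.sum_univ_three, T]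
  field_simp
  linear_combination h

theorem BB (θ : ℝ) : ∑ i, (b i θ / bet θ) ^ 2 = 1 := by
  have hb := (bet_pos θ).ne'
  have hb2 : bet θ ^ 2 = b 0 θ ^ 2 + b 1 θ ^ 2 + b 2 θ ^ 2 := bet_sq θ
  simp only [Fin.sum_univ_three]
  field_simp
  linear_combination -hb2

theorem TD (θ : ℝ) : ∑ i, T i θ * D i θ = lam θ := by
  have h1 := TT θ
  have h2 := TB θ
  simp only [Fin.sum_univ_three, D] at h1 h2 ⊢
  linear_combination lam θ * h1 + h2

theorem DD (θ : ℝ) : ∑ i, D i θ ^ 2 = 1 + lam θ ^ 2 := by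
  have h1 := TT θ
  have h2 := TB θ
  have h3 := BB θ
  simp only [Fin.sum_univ_three, D] at h1 h2 h3 ⊢
  linear_combination lam θ ^ 2 * h1 + 2 * lam θ * h2 + h3

theorem cc_per (i : Fin 3) (θ : ℝ) : cc i (θ + π) = cc i θ := by
  fin_cases i <;> simp [cc, sin_add_pi, cos_add_pi] <;> ring

theorem a_per (i : Fin 3) (θ : ℝ) : a i (θ + π) = a i θ := by
  fin_cases i <;> simp [a, sin_add_pi, cos_add_pi] <;> ring

theorem b_per (i : Fin 3) (θ : ℝ) : b i (θ + π) = - b i θ := by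
  have h1 := sin_add_pi θ
  have h2 := cos_add_pi θ
  fin_cases i
  · change 27 * sin (θ + π) ^ 5 - 48 * sin (θ + π) ^ 7 + 24 * sin (θ + π) ^ 9 =
      -(27 * sin θ ^ 5 - 48 * sin θ ^ 7 + 24 * sin θ ^ 9)
    rw [h1]; ring
  · change -(15 * sin (θ + π) ^ 3 - 36 * sin (θ + π) ^ 5 + 24 * sin (θ + π) ^ 7) =
      -(-(15 * sin θ ^ 3 - 36 * sin θ ^ 5 + 24 * sin θ ^ 7))
    rw [h1]; ring
  · change cos (θ + π) * (3 - 8 * sin (θ + π) ^ 2 + 8 * sin (θ + π) ^ 4) =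
      -(cos θ * (3 - 8 * sin θ ^ 2 + 8 * sin θ ^ 4))
    rw [h1, h2]; ring

theorem q_per (θ : ℝ) : q (θ + π) = q θ := by
  simp [q, sin_add_pi]; ring

theorem rho_per (θ : ℝ) : rho (θ + π) = rho θ := by
  simp only [rho, rho2, a_per]

theorem bet_per (θ : ℝ) : bet (θ + π) = bet θ := by
  simp only [bet, bet2, b_per, neg_sq]

theorem lam_per (θ : ℝ) : lam (θ + π) = - lam θ := by
  simp only [lam, q_per, rho_per, bet_per, sin_add_pi]; ring

theorem D_per (i : Fin 3) (θ : ℝ) : D i (θ + π) = - D i θ := by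
  simp only [D, T, lam_per, a_per, rho_per, bet_per, b_per]; ring

theorem inj (θ θ' : ℝ) (h : ∀ i, cc i θ = cc i θ') : ∃ n : ℤ, θ = θ' + n * π := by
  have h0 : sin θ * cos θ = sin θ' * cos θ' := h 0
  have h2 : sin θ ^ 6 = sin θ' ^ 6 := h 2
  have h3 : sin θ ^ 2 = sin θ' ^ 2 := by
    have : (sin θ ^ 2) ^ 3 = (sin θ' ^ 2) ^ 3 := by rw [← pow_mul, ← pow_mul]; exact h2
    exact (pow_left_inj₀ (sq_nonneg _) (sq_nonneg _) (by norm_num)).1 this
  have h4 := Real.sin_sq_add_cos_sq θ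
  have h5 := Real.sin_sq_add_cos_sq θ'
  have h6 : sin (θ - θ') ^ 2 = 0 := by
    rw [sin_sub]
    have e1 : cos θ ^ 2 = 1 - sin θ ^ 2 := by linarith
    have e2 : cos θ' ^ 2 = 1 - sin θ ^ 2 := by linarith
    have e3 : (sin θ * cos θ) * (sin θ' * cos θ') = sin θ ^ 2 * cos θ ^ 2 := by
      rw [← h0]; ring
    calc (sin θ * cos θ' - cos θ * sin θ') ^ 2
        = sin θ ^ 2 * cos θ' ^ 2 - 2 * ((sin θ * cos θ) * (sin θ' * cos θ')) +
          cos θ ^ 2 * sin θ' ^ 2 := by ring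
      _ = 0 := by rw [e3, e2, e1, ← h3]; ring
  obtain ⟨n, hn⟩ := Real.sin_eq_zero_iff.1 (pow_eq_zero_iff (by norm_num) |>.1 h6)
  exact ⟨n, by linarith⟩

/-- the data of the scaled curve -/
noncomputable def data (k : ℝ) (hk : 0 < k) : Data where
  c i θ := k * cc i θ
  T := T
  D := D
  rho θ := k * rho θ
  lam := lam
  dlam := dlam
  hc i := contDiff_const.mul (cc_smooth i)
  hD := D_smooth
  hrho := contDiff_const.mul rho_smooth
  hlam := lam_smooth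
  dc i θ := by
    refine ((cc_deriv i θ).const_mul k).congr_deriv ?_
    have := (rho_pos θ).ne'
    simp only [T]
    field_simp
  dD := D_deriv
  dl := lam_deriv
  rho_pos θ := mul_pos hk (rho_pos θ)
  TT := TT
  TD := TD
  DD := DD
  per_c i θ := by rw [cc_per]
  per_D := D_per
  per_rho θ := by rw [rho_per]
  per_lam := lam_per
  inj θ θ' h := inj θ θ' fun i => mul_left_cancel₀ hk.ne' (h i)

end Curve

end Pool.Agent.H48R3.MB
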