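import Mathlib
import Pool.Agent.Helper834.EC.Dim1

set_option autoImplicit false

namespace Pool.Agent.H48R3.MB

open MvPolynomial Cardinal

/-- The ideal of all polynomials vanishing at all points `F x`. -/
def vanIdeal {D : Type} (F : D → Fin 4 → ℝ) : Ideal (MvPolynomial (Fin 4) ℝ) where
  carrier := {p | ∀ x, eval (F x) p = 0}
  add_mem' := by
    intro p q hp hq x
    simp [hp x, hq x]
  zero_mem' := by intro x; simp
  smul_mem' := by
    intro c p hp x
    simp [hp x]

theorem dim_two {D : Type} (F : D → Fin 4 → ℝ) (B : Subalgebra ℝ (D → ℝ)) [NoZeroDivisors B]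
    (hF : ∀ i, (fun x => F x i) ∈ B) (htr : Algebra.trdeg ℝ B ≤ 2)
    (s0 s1 : Set ℝ) (h0 : s0.Infinite) (h1 : s1.Infinite)
    (hs : ∀ a ∈ s0, ∀ b ∈ s1, ∃ x, F x 0 = a ∧ F x 3 = b) :
    ringKrullDim (MvPolynomial (Fin 4) ℝ ⧸ vanIdeal F) = 2 := by
  obtain ⟨a0, ha0⟩ := h0.nonempty
  obtain ⟨b0, hb0⟩ := h1.nonempty
  obtain ⟨x0, -, -⟩ := hs a0 ha0 b0 hb0
  have : Nontrivial (D → ℝ) := by
    refine ⟨⟨0, 1, fun h => ?_⟩⟩
    have := congrFun h x0
    simp at this
  have : Nontrivial B := inferInstance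
  have : IsDomain B := NoZeroDivisors.to_isDomain _
  let φ : MvPolynomial (Fin 4) ℝ →ₐ[ℝ] B := aeval (fun i => (⟨fun x => F x i, hF i⟩ : B))
  have hφ : ∀ p x, (φ p : D → ℝ) x = eval (F x) p := by
    intro p x
    let ev : B →ₐ[ℝ] ℝ := (Pi.evalAlgHom ℝ (fun _ : D => ℝ) x).comp B.val
    have : (ev.comp φ) = aeval (F x) := by
      ext i
      simp [ev, φ]
    have h2 := DFunLike.congr_fun this p
    simpa [ev, MvPolynomial.aeval_eq_eval] using h2
  have hker : ∀ p, p ∈ vanIdeal F ↔ φ p = 0 := by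
    intro p
    constructor
    · intro hp
      ext x
      rw [hφ]
      exact hp x
    · intro hp x
      rw [← hφ, hp]
      rfl
  let ψ : (MvPolynomial (Fin 4) ℝ ⧸ vanIdeal F) →ₐ[ℝ] B :=
    Ideal.Quotient.liftₐ (vanIdeal F) φ (fun p hp => (hker p).1 hp)
  have hψ : Function.Injective ψ := by
    rw [injective_iff_map_eq_zero]
    intro a ha
    obtain ⟨p, rfl⟩ := Ideal.Quotient.mk_surjective a
    rw [Ideal.Quotient.eq_zero_iff_mem]
    exact (hker p).2 ha
  have : IsDomain (MvPolynomial (Fin 4) ℝ ⧸ vanIdeal F) := hψ.isDomain ψ.toRingHom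
  obtain ⟨n, hn1, hn2⟩ := Pool.Agent.Helper834.EC.exists_ringKrullDim_eq_trdeg ℝ
    (MvPolynomial (Fin 4) ℝ ⧸ vanIdeal F)
  have hle : n ≤ 2 := by
    have : (n : Cardinal.{0}) ≤ 2 := by
      rw [← hn2]
      exact (trdeg_le_of_injective ψ hψ).trans htr
    exact_mod_cast this
  have hge : 2 ≤ n := by
    have hai : AlgebraicIndependent ℝ
        (fun i : Fin 2 => (Ideal.Quotient.mk (vanIdeal F) (X (![0, 3] i)) :
          MvPolynomial (Fin 4) ℝ ⧸ vanIdeal F)) := by
      rw [algebraicIndependent_iff]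
      intro p hp
      have h2 : p = 0 := by
        refine MvPolynomial.funext_set (R := ℝ) (p := p) (q := 0) ![s0, s1] ?_ ?_
        · intro i; fin_cases i <;> assumption
        · intro y hy
          obtain ⟨x, hx0, hx1⟩ := hs (y 0) (hy 0 trivial) (y 1) (hy 1 trivial)
          have h3 : rename ![0, 3] p ∈ vanIdeal F := by
            rw [← Ideal.Quotient.eq_zero_iff_mem, ← hp]
            have : (Ideal.Quotient.mkₐ ℝ (vanIdeal F)).comp (rename (![0, 3] : Fin 2 → Fin 4)) =
                aeval (fun i : Fin 2 => (Ideal.Quotient.mk (vanIdeal F) (X (![0, 3] i)) :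
                  MvPolynomial (Fin 4) ℝ ⧸ vanIdeal F)) := by
              ext i
              simp
            exact DFunLike.congr_fun this p
          have h4 := h3 x
          rw [eval_rename] at h4
          have h5 : F x ∘ ![0, 3] = y := by
            ext i; fin_cases i
            · exact hx0
            · exact hx1
          rw [h5] at h4
          rw [h4]; simp
      exact h2
    have h6 := hai.cardinalMk_le_trdeg
    rw [hn2] at h6
    have h7 : (2 : Cardinal.{0}) ≤ n := by simpa using h6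
    exact_mod_cast h7
  have : n = 2 := le_antisymm hle hge
  rw [hn1, this]
  rfl

end Pool.Agent.H48R3.MB
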