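import Mathlib
import Pool.Agent.H48R3.MB.Curve
import Pool.Agent.H48R3.MB.Dim

set_option autoImplicit false

namespace Pool.Agent.H48R3.MB

open scoped ContDiff Topology
open Set Filter Topology Real

/-- A subalgebra of real-analytic functions on the plane has no zero divisors. -/
theorem noZeroDivisors_of_analytic (B : Subalgebra ℝ (ℝ × ℝ → ℝ))
    (hB : ∀ f ∈ B, ContDiff ℝ ω f) : NoZeroDivisors B := by
  constructor
  rintro ⟨f, hf⟩ ⟨g, hg⟩ h
  have hfa : AnalyticOnNhd ℝ f univ := contDiff_omega_iff_analyticOnNhd.1 (hB f hf)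
  have hga : AnalyticOnNhd ℝ g univ := contDiff_omega_iff_analyticOnNhd.1 (hB g hg)
  have hfg : ∀ x, f x * g x = 0 := fun x => congrFun (Subtype.ext_iff.1 h) x
  by_cases h0 : f = 0
  · left; exact Subtype.ext h0
  · right
    obtain ⟨x, hx⟩ : ∃ x, f x ≠ 0 := by
      by_contra hcon
      push Not at hcon
      exact h0 (funext hcon)
    have h1 : g =ᶠ[𝓝 x] 0 := by
      have h2 : ∀ᶠ y in 𝓝 x, f y ≠ 0 := (hB f hf).continuous.continuousAt.eventually_ne hx
      filter_upwards [h2] with y hy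
      exact (mul_eq_zero.1 (hfg y)).resolve_left hy
    have h3 := hga.eqOn_zero_of_preconnected_of_eventuallyEq_zero isPreconnected_univ
      (mem_univ x) h1
    exact Subtype.ext (funext fun y => h3 (mem_univ y))

namespace Curve

/-- generating functions -/
noncomputable def fs : ℝ × ℝ → ℝ := fun p => sin p.1
/-- generating functions -/
noncomputable def fc : ℝ × ℝ → ℝ := fun p => cos p.1
/-- generating functions -/
noncomputable def ft (S : ℝ) : ℝ × ℝ → ℝ := fun p => sF S p.2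
/-- generating functions -/
noncomputable def fh : ℝ × ℝ → ℝ := fun p => p.2 ^ 2
/-- generating functions -/
noncomputable def fg : ℝ × ℝ → ℝ := fun p => (bet p.1 ^ 3)⁻¹

/-- the algebra generated by them -/
noncomputable def BB' (S : ℝ) : Subalgebra ℝ (ℝ × ℝ → ℝ) :=
  Algebra.adjoin ℝ {fs, fc, ft S, fh, fg}

theorem mem_fs (S : ℝ) : fs ∈ BB' S := Algebra.subset_adjoin (by simp)
theorem mem_fc (S : ℝ) : fc ∈ BB' S := Algebra.subset_adjoin (by simp)
theorem mem_ft (S : ℝ) : ft S ∈ BB' S := Algebra.subset_adjoin (by simp)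
theorem mem_fh (S : ℝ) : fh ∈ BB' S := Algebra.subset_adjoin (by simp)
theorem mem_fg (S : ℝ) : fg ∈ BB' S := Algebra.subset_adjoin (by simp)

theorem bet2_omega : ContDiff ℝ ω bet2 := by
  have h : bet2 = fun θ => (27 * sin θ ^ 5 - 48 * sin θ ^ 7 + 24 * sin θ ^ 9) ^ 2 +
    (-(15 * sin θ ^ 3 - 36 * sin θ ^ 5 + 24 * sin θ ^ 7)) ^ 2 +
    (cos θ * (3 - 8 * sin θ ^ 2 + 8 * sin θ ^ 4)) ^ 2 := rfl
  rw [h]
  have hs : ContDiff ℝ ω sin := Real.contDiff_sin
  have hc : ContDiff ℝ ω cos := Real.contDiff_cos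
  fun_prop

theorem analytic_BB' (S : ℝ) : ∀ f ∈ BB' S, ContDiff ℝ ω f := by
  intro f hf
  have hs : ContDiff ℝ ω sin := Real.contDiff_sin
  have hc : ContDiff ℝ ω cos := Real.contDiff_cos
  induction hf using Algebra.adjoin_induction with
  | mem x hx =>
    simp only [mem_insert_iff, mem_singleton_iff] at hx
    rcases hx with rfl | rfl | rfl | rfl | rfl
    · unfold fs; fun_prop
    · unfold fc; fun_prop
    · have h0 : ∀ r : ℝ, 1 + r ^ 2 ≠ 0 := fun r => by positivity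
      have h1 : ContDiff ℝ ω fun r : ℝ => √(1 + r ^ 2) := by
        refine ContDiff.sqrt (by fun_prop) h0
      have h2 : ContDiff ℝ ω (sF S) := by
        refine contDiff_const.mul (contDiff_id.div h1 fun r => ?_)
        exact (Real.sqrt_pos.2 (by positivity)).ne'
      exact h2.comp contDiff_snd
    · unfold fh; fun_prop
    · have h1 : ContDiff ℝ ω bet := ContDiff.sqrt bet2_omega fun θ => (bet2_pos θ).ne'
      have h2 : ContDiff ℝ ω fun θ => (bet θ ^ 3)⁻¹ :=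
        (h1.pow 3).inv fun θ => pow_ne_zero _ (bet_pos θ).ne'
      exact h2.comp contDiff_fst
  | algebraMap r => exact contDiff_const
  | add x y _ _ hx hy => exact hx.add hy
  | mul x y _ _ hx hy => exact hx.mul hy

theorem nzd (S : ℝ) : NoZeroDivisors (BB' S) := noZeroDivisors_of_analytic _ (analytic_BB' S)

theorem isAlgebraic_BB' {S : ℝ} (hS : 0 < S) :
    Algebra.IsAlgebraic (Algebra.adjoin ℝ ({⟨fc, mem_fc S⟩, ⟨ft S, mem_ft S⟩} : Set (BB' S)))
      (BB' S) := by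
  have := nzd S
  have : IsDomain (BB' S) := NoZeroDivisors.to_isDomain _
  set R0 := Algebra.adjoin ℝ ({⟨fc, mem_fc S⟩, ⟨ft S, mem_ft S⟩} : Set (BB' S)) with hR0
  have : IsDomain R0 := inferInstance
  have hmemR : ∀ x ∈ R0, IsAlgebraic R0 x := fun x hx =>
    isAlgebraic_algebraMap (⟨x, hx⟩ : R0)
  have hconst : ∀ r : ℝ, IsAlgebraic R0 (algebraMap ℝ (BB' S) r) := fun r =>
    hmemR _ (Subalgebra.algebraMap_mem _ _)
  have hfc : IsAlgebraic R0 (⟨fc, mem_fc S⟩ : BB' S) :=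
    hmemR _ (Algebra.subset_adjoin (by simp))
  have hft : IsAlgebraic R0 (⟨ft S, mem_ft S⟩ : BB' S) :=
    hmemR _ (Algebra.subset_adjoin (by simp))
  have hfs : IsAlgebraic R0 (⟨fs, mem_fs S⟩ : BB' S) := by
    refine IsAlgebraic.of_pow (n := 2) (by norm_num) ?_
    have h1 : (⟨fs, mem_fs S⟩ : BB' S) ^ 2 = algebraMap ℝ (BB' S) 1 - ⟨fc, mem_fc S⟩ ^ 2 := by
      apply Subtype.ext
      funext p
      have := Real.sin_sq_add_cos_sq p.1
      change sin p.1 ^ 2 = 1 - cos p.1 ^ 2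
      linarith
    rw [h1]
    exact (hconst 1).sub (hfc.pow 2)
  have hfh : IsAlgebraic R0 (⟨fh, mem_fh S⟩ : BB' S) := by
    have h1 : (algebraMap ℝ (BB' S) (S ^ 2) - ⟨ft S, mem_ft S⟩ ^ 2) * ⟨fh, mem_fh S⟩ =
        (⟨ft S, mem_ft S⟩ : BB' S) ^ 2 := by
      apply Subtype.ext
      funext p
      have := sF_sq (S := S) p.2
      change (S ^ 2 - sF S p.2 ^ 2) * p.2 ^ 2 = sF S p.2 ^ 2
      linarith
    refine IsAlgebraic.of_mul (y := algebraMap ℝ (BB' S) (S ^ 2) - ⟨ft S, mem_ft S⟩ ^ 2) ?_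
      ((hconst _).sub (hft.pow 2)) (by rw [h1]; exact hft.pow 2)
    rw [mem_nonZeroDivisors_iff_ne_zero]
    intro h2
    have h3 := congrFun (Subtype.ext_iff.1 h2) (0, 0)
    have h4 : S ^ 2 - sF S 0 ^ 2 = 0 := h3
    have h5 : sF S 0 = 0 := by simp [sF]
    rw [h5] at h4
    have : 0 < S ^ 2 := by positivity
    linarith
  have hfg : IsAlgebraic R0 (⟨fg, mem_fg S⟩ : BB' S) := by
    let c2 : ℝ → BB' S := algebraMap ℝ (BB' S)
    let s : BB' S := ⟨fs, mem_fs S⟩
    let c : BB' S := ⟨fc, mem_fc S⟩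
    let P : BB' S := (c2 27 * s ^ 5 - c2 48 * s ^ 7 + c2 24 * s ^ 9) ^ 2 +
      (c2 15 * s ^ 3 - c2 36 * s ^ 5 + c2 24 * s ^ 7) ^ 2 +
      (c * (c2 3 - c2 8 * s ^ 2 + c2 8 * s ^ 4)) ^ 2
    have hP : ∀ p, (P : ℝ × ℝ → ℝ) p = bet2 p.1 := by
      intro p
      have h1 : bet2 p.1 = (27 * sin p.1 ^ 5 - 48 * sin p.1 ^ 7 + 24 * sin p.1 ^ 9) ^ 2 +
        (-(15 * sin p.1 ^ 3 - 36 * sin p.1 ^ 5 + 24 * sin p.1 ^ 7)) ^ 2 +
        (cos p.1 * (3 - 8 * sin p.1 ^ 2 + 8 * sin p.1 ^ 4)) ^ 2 := rfl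
      rw [h1, neg_sq]
      rfl
    have hPalg : IsAlgebraic R0 P := by
      have e5 := (hconst 27).mul (hfs.pow 5)
      have e7 := (hconst 48).mul (hfs.pow 7)
      have e9 := (hconst 24).mul (hfs.pow 9)
      have g3 := (hconst 15).mul (hfs.pow 3)
      have g5 := (hconst 36).mul (hfs.pow 5)
      have g7 := (hconst 24).mul (hfs.pow 7)
      have k2 := (hconst 8).mul (hfs.pow 2)
      have k4 := (hconst 8).mul (hfs.pow 4)
      exact ((((e5.sub e7).add e9).pow 2).add (((g3.sub g5).add g7).pow 2)).add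
        ((hfc.mul (((hconst 3).sub k2).add k4)).pow 2)
    have h1 : P ^ 3 * (⟨fg, mem_fg S⟩ : BB' S) ^ 2 = algebraMap ℝ (BB' S) 1 := by
      apply Subtype.ext
      funext p
      change (P : ℝ × ℝ → ℝ) p ^ 3 * ((bet p.1 ^ 3)⁻¹) ^ 2 = 1
      rw [hP, ← bet_sq]
      have := (bet_pos p.1).ne'
      field_simp
    refine IsAlgebraic.of_pow (n := 2) (by norm_num) ?_
    refine IsAlgebraic.of_mul (y := P ^ 3) ?_ (hPalg.pow 3) (by rw [h1]; exact hconst 1)
    rw [mem_nonZeroDivisors_iff_ne_zero]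
    intro h2
    rw [h2, zero_mul] at h1
    have h3 := congrFun (Subtype.ext_iff.1 h1) (0, 0)
    change (0 : ℝ) = 1 at h3
    norm_num at h3
  refine ⟨fun x => ?_⟩
  obtain ⟨x, hx⟩ := x
  revert hx
  change ∀ hx : x ∈ Algebra.adjoin ℝ _, IsAlgebraic R0 (⟨x, hx⟩ : BB' S)
  intro hx
  induction hx using Algebra.adjoin_induction with
  | mem x hx =>
    simp only [mem_insert_iff, mem_singleton_iff] at hx
    rcases hx with rfl | rfl | rfl | rfl | rfl
    · exact hfs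
    · exact hfc
    · exact hft
    · exact hfh
    · exact hfg
  | algebraMap r => exact hconst r
  | add x y hx' hy' hx hy => exact hx.add hy
  | mul x y hx' hy' hx hy => exact hx.mul hy

theorem trdeg_BB' {S : ℝ} (hS : 0 < S) : Algebra.trdeg ℝ (BB' S) ≤ 2 := by
  have := nzd S
  have := isAlgebraic_BB' hS
  refine (Algebra.IsAlgebraic.trdeg_le_cardinalMk ℝ
    ({⟨fc, mem_fc S⟩, ⟨ft S, mem_ft S⟩} : Set (BB' S))).trans ?_
  refine (Cardinal.mk_insert_le).trans ?_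
  rw [Cardinal.mk_singleton]
  norm_num

end Curve

end Pool.Agent.H48R3.MB
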