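import Mathlib
import Pool.Agent.H48R3.MB.Alg

set_option autoImplicit false

namespace Pool.Agent.H48R3.MB

open scoped ContDiff Topology
open Set Filter Topology Real

theorem isAlgebraicSurface_range {D : Type} (f : D → E4)
    (h : ringKrullDim (MvPolynomial (Fin 4) ℝ ⧸ vanIdeal (fun x i => f x i)) = 2) :
    IsAlgebraicSurface (range f) := by
  obtain ⟨P, hP⟩ : (vanIdeal (fun x i => f x i)).FG := IsNoetherian.noetherian _
  have hsub : range f ⊆ zeroSet P := by
    rintro _ ⟨x, rfl⟩ p hp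
    have h1 : p ∈ vanIdeal (fun x i => f x i) := by
      rw [← hP]; exact Ideal.subset_span hp
    exact h1 x
  refine ⟨P, hsub, ?_⟩
  have h2 : idealOf (zeroSet P) = vanIdeal (fun x i => f x i) := by
    apply le_antisymm
    · intro p hp x
      exact hp _ (hsub ⟨x, rfl⟩)
    · rw [← hP, Ideal.span_le]
      intro p hp x hx
      exact hx p hp
  rw [algDim, h2, h]

namespace Curve

theorem mem_const (S r : ℝ) : (fun _ : ℝ × ℝ => r) ∈ BB' S :=
  (BB' S).algebraMap_mem r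

theorem mem_a (S : ℝ) (i : Fin 3) : (fun p : ℝ × ℝ => a i p.1) ∈ BB' S := by
  have hs := mem_fs S
  have hc := mem_fc S
  fin_cases i
  · exact (BB' S).sub_mem (mem_const S 1) ((BB' S).mul_mem (mem_const S 2) ((BB' S).pow_mem hs 2))
  · exact (BB' S).sub_mem ((BB' S).mul_mem (mem_const S 3) ((BB' S).pow_mem hs 2))
      ((BB' S).mul_mem (mem_const S 4) ((BB' S).pow_mem hs 4))
  · exact (BB' S).mul_mem ((BB' S).mul_mem (mem_const S 6) ((BB' S).pow_mem hs 5)) hc

theorem mem_b (S : ℝ) (i : Fin 3) : (fun p : ℝ × ℝ => b i p.1) ∈ BB' S := by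
  have hs := mem_fs S
  have hc := mem_fc S
  fin_cases i
  · exact (BB' S).add_mem ((BB' S).sub_mem
      ((BB' S).mul_mem (mem_const S 27) ((BB' S).pow_mem hs 5))
      ((BB' S).mul_mem (mem_const S 48) ((BB' S).pow_mem hs 7)))
      ((BB' S).mul_mem (mem_const S 24) ((BB' S).pow_mem hs 9))
  · exact (BB' S).neg_mem ((BB' S).add_mem ((BB' S).sub_mem
      ((BB' S).mul_mem (mem_const S 15) ((BB' S).pow_mem hs 3))
      ((BB' S).mul_mem (mem_const S 36) ((BB' S).pow_mem hs 5)))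
      ((BB' S).mul_mem (mem_const S 24) ((BB' S).pow_mem hs 7)))
  · exact (BB' S).mul_mem hc ((BB' S).add_mem ((BB' S).sub_mem (mem_const S 3)
      ((BB' S).mul_mem (mem_const S 8) ((BB' S).pow_mem hs 2)))
      ((BB' S).mul_mem (mem_const S 8) ((BB' S).pow_mem hs 4)))

theorem mem_cc (S : ℝ) (i : Fin 3) : (fun p : ℝ × ℝ => cc i p.1) ∈ BB' S := by
  have hs := mem_fs S
  have hc := mem_fc S
  fin_cases i
  · exact (BB' S).mul_mem hs hc
  · exact (BB' S).mul_mem ((BB' S).pow_mem hs 3) hc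
  · exact (BB' S).pow_mem hs 6

theorem mem_q (S : ℝ) : (fun p : ℝ × ℝ => q p.1) ∈ BB' S := by
  have hs := mem_fs S
  exact (BB' S).add_mem ((BB' S).sub_mem ((BB' S).add_mem ((BB' S).sub_mem (mem_const S 135)
    ((BB' S).mul_mem (mem_const S 480) ((BB' S).pow_mem hs 2)))
    ((BB' S).mul_mem (mem_const S 720) ((BB' S).pow_mem hs 4)))
    ((BB' S).mul_mem (mem_const S 576) ((BB' S).pow_mem hs 6)))
    ((BB' S).mul_mem (mem_const S 192) ((BB' S).pow_mem hs 8))

theorem mem_rho2 (S : ℝ) : (fun p : ℝ × ℝ => rho2 p.1) ∈ BB' S :=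
  (BB' S).add_mem ((BB' S).add_mem ((BB' S).pow_mem (mem_a S 0) 2)
    ((BB' S).pow_mem (mem_a S 1) 2)) ((BB' S).pow_mem (mem_a S 2) 2)

theorem mem_bet2 (S : ℝ) : (fun p : ℝ × ℝ => bet2 p.1) ∈ BB' S :=
  (BB' S).add_mem ((BB' S).add_mem ((BB' S).pow_mem (mem_b S 0) 2)
    ((BB' S).pow_mem (mem_b S 1) 2)) ((BB' S).pow_mem (mem_b S 2) 2)

theorem D_eq (i : Fin 3) (θ : ℝ) :
    D i θ = (2⁻¹ * (sin θ * q θ * rho2 θ * a i θ) + bet2 θ * b i θ) * (bet θ ^ 3)⁻¹ := by
  have hr := (rho_pos θ).ne'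
  have hb := (bet_pos θ).ne'
  rw [← rho_sq, ← bet_sq]
  simp only [D, lam, T]
  field_simp

theorem mem_D (S : ℝ) (i : Fin 3) : (fun p : ℝ × ℝ => D i p.1) ∈ BB' S := by
  have h : (fun p : ℝ × ℝ => D i p.1) = (fun p : ℝ × ℝ =>
      (2⁻¹ * (sin p.1 * q p.1 * rho2 p.1 * a i p.1) + bet2 p.1 * b i p.1) *
        (bet p.1 ^ 3)⁻¹) := funext fun p => D_eq i p.1
  rw [h]
  exact (BB' S).mul_mem ((BB' S).add_mem ((BB' S).mul_mem (mem_const S 2⁻¹)
    ((BB' S).mul_mem ((BB' S).mul_mem ((BB' S).mul_mem (mem_fs S) (mem_q S)) (mem_rho2 S))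
      (mem_a S i))) ((BB' S).mul_mem (mem_bet2 S) (mem_b S i))) (mem_fg S)

theorem mem_Y (S k : ℝ) (hk : 0 < k) (i : Fin 3) :
    (fun p : ℝ × ℝ => (data k hk).Y (p.1, sF S p.2) i) ∈ BB' S :=
  (BB' S).add_mem ((BB' S).mul_mem (mem_const S k) (mem_cc S i))
    ((BB' S).mul_mem (mem_ft S) (mem_D S i))

theorem mem_F (S k : ℝ) (hk : 0 < k) (i : Fin 4) :
    (fun p : ℝ × ℝ => (data k hk).F S p i) ∈ BB' S := by
  fin_cases i
  · exact mem_Y S k hk 0
  · exact mem_Y S k hk 1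
  · exact mem_Y S k hk 2
  · exact mem_fh S

/-- a product set in the image of the first and the last coordinate -/
theorem exists_point {k S : ℝ} (hk : 0 < k) (hS : 0 < S)
    (hSk : S * (|D 0 (π / 4)| + |D 0 (-(π / 4))|) ≤ k / 4) {x h : ℝ}
    (hx : x ∈ Icc (-(k / 4)) (k / 4)) (hh : 0 ≤ h) :
    ∃ p : ℝ × ℝ, (data k hk).F S p 0 = x ∧ (data k hk).F S p 3 = h := by
  set s := sF S (√h) with hs
  have hsS : |s| < S := sF_abs_lt hS _
  have hcont : ContinuousOn (fun θ => k * (sin θ * cos θ) + s * D 0 θ)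
      (Icc (-(π / 4)) (π / 4)) := by
    have := (D_smooth 0).continuous
    fun_prop
  have hb : ∀ θ, |s * D 0 θ| ≤ S * |D 0 θ| := by
    intro θ
    rw [abs_mul]
    exact mul_le_mul_of_nonneg_right hsS.le (abs_nonneg _)
  have hsc : sin (π / 4) * cos (π / 4) = 1 / 2 := by
    rw [sin_pi_div_four, cos_pi_div_four]
    have : √2 * √2 = 2 := Real.mul_self_sqrt (by norm_num)
    linear_combination this / 4
  have h1 : k * (sin (-(π / 4)) * cos (-(π / 4))) + s * D 0 (-(π / 4)) ≤ x := by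
    have e1 : sin (-(π / 4)) * cos (-(π / 4)) = -(1 / 2) := by
      rw [sin_neg, cos_neg, neg_mul, hsc]
    rw [e1]
    have e2 := le_of_abs_le (hb (-(π / 4)))
    have e3 := abs_nonneg (D 0 (π / 4))
    nlinarith [hx.1]
  have h2 : x ≤ k * (sin (π / 4) * cos (π / 4)) + s * D 0 (π / 4) := by
    rw [hsc]
    have e2 := neg_le_of_abs_le (hb (π / 4))
    have e3 := abs_nonneg (D 0 (-(π / 4)))
    nlinarith [hx.2]
  obtain ⟨θ, -, hθ⟩ := intermediate_value_Icc (by linarith [pi_pos]) hcont ⟨h1, h2⟩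
  exact ⟨(θ, √h), hθ, Real.sq_sqrt hh⟩

theorem dim_F {k S : ℝ} (hk : 0 < k) (hS : 0 < S)
    (hSk : S * (|D 0 (π / 4)| + |D 0 (-(π / 4))|) ≤ k / 4) :
    IsAlgebraicSurface (range ((data k hk).F S)) := by
  apply isAlgebraicSurface_range
  have := nzd S
  refine dim_two (fun (p : ℝ × ℝ) i => (data k hk).F S p i) (BB' S) (mem_F S k hk)
    (trdeg_BB' hS) (Icc (-(k / 4)) (k / 4)) (Ici 0) ?_ ?_ ?_
  · exact Icc_infinite (by linarith)
  · exact Ici_infinite 0
  · intro x hx h hh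
    exact exists_point hk hS hSk hx hh

end Curve

open Curve in
/-- **Theorem.** For every `w > 0` there is an isometric embedding of the complete flat Moebius
band `M_w` into Euclidean 4-space whose image lies in a two-dimensional real algebraic set. -/
theorem main (w : ℝ) (hw : 0 < w) : ∃ X : MoebiusBand w → E4,
    IsIsometricEmbedding w X ∧ IsAlgebraicSurface (range X) := by
  obtain ⟨L, hLdef⟩ : ∃ L, L = (data 1 one_pos).len := ⟨_, rfl⟩
  have hL : 0 < L := by rw [hLdef]; exact (data 1 one_pos).len_pos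
  have hk : 0 < w / L := by positivity
  have hlen : (data (w / L) hk).len = w := by
    have h0 : L = ∫ x in (0 : ℝ)..π, rho x := by
      rw [hLdef]
      change ∫ x in (0 : ℝ)..π, 1 * rho x = _
      simp
    change ∫ x in (0 : ℝ)..π, w / L * rho x = w
    rw [intervalIntegral.integral_const_mul, ← h0]
    field_simp
  obtain ⟨S0, hS0, h⟩ := (data (w / L) hk).exists_embedding
  rw [hlen] at h
  set K := |D 0 (π / 4)| + |D 0 (-(π / 4))| with hK
  have hK0 : 0 ≤ K := by positivity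
  set S := min S0 (w / L / 4 / (1 + K)) with hSdef
  have hS : 0 < S := by positivity
  obtain ⟨X, hX, hr⟩ := h S hS (min_le_left _ _)
  refine ⟨X, hX, ?_⟩
  rw [hr]
  refine dim_F hk hS ?_
  have h1 : S ≤ w / L / 4 / (1 + K) := min_le_right _ _
  rw [le_div_iff₀ (by positivity)] at h1
  nlinarith

end Pool.Agent.H48R3.MB
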